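import Mathlib

/-!
The Hopf-type identity on one leaf, for `2π`-periodic leaves (after helper42's centrally
symmetric version).
-/

noncomputable section

namespace Pool.Agent.MP_ae5b4e_an_total

open Real Set Filter Topology MeasureTheory intervalIntegral

lemma integral_comp_tau {F τ τ' : ℝ → ℝ} {T : ℝ} (hτ : ∀ θ, HasDerivAt τ (τ' θ) θ)
    (hτ' : Continuous τ') (hτπ : τ T = τ 0 + T) (hF : Continuous F) (hFp : ∀ θ, F (θ + T) = F θ) :
    ∫ θ in (0)..T, F (τ θ) * τ' θ = ∫ θ in (0)..T, F θ := by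
  have h1 := intervalIntegral.integral_comp_mul_deriv (a := 0) (b := T) (f := τ) (f' := τ')
    (g := F) (fun θ _ => hτ θ) hτ'.continuousOn hF
  simp only [Function.comp] at h1
  rw [h1, hτπ]
  have h2 : Function.Periodic F T := hFp
  have := h2.intervalIntegral_add_eq (τ 0) 0
  rw [this, zero_add]

lemma surjective_of_shift {τ : ℝ → ℝ} {T : ℝ} (hT : 0 < T) (hc : Continuous τ)
    (hs : ∀ θ, τ (θ + T) = τ θ + T) :
    Function.Surjective τ := by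
  have hn : ∀ n : ℕ, τ (n * T) = τ 0 + n * T ∧ τ (-(n * T)) = τ 0 - n * T := by
    intro n
    induction n with
    | zero => simp
    | succ n ih =>
      constructor
      · have h := hs (n * T)
        rw [ih.1] at h
        have e : ((n + 1 : ℕ) : ℝ) * T = n * T + T := by push_cast; ring
        rw [e, h]; ring
      · have h := hs (-((n + 1 : ℕ) * T))
        have e : -(((n + 1 : ℕ) : ℝ) * T) + T = -(n * T) := by push_cast; ring
        rw [e, ih.2] at h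
        push_cast at h ⊢
        linarith
  intro t
  obtain ⟨n, hn'⟩ := exists_nat_gt (|t - τ 0| / T)
  rw [div_lt_iff₀ hT] at hn'
  obtain ⟨h1, h2⟩ := hn n
  have h3 := abs_lt.1 hn'
  have hle : -((n:ℝ) * T) ≤ n * T := by
    have : 0 ≤ (n:ℝ) * T := by positivity
    linarith
  have hmem : t ∈ Icc (τ (-(n * T))) (τ (n * T)) := by
    rw [h1, h2]
    exact ⟨by linarith [h3.1], by linarith [h3.2]⟩
  obtain ⟨s, -, hs'⟩ := intermediate_value_Icc hle hc.continuousOn hmem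
  exact ⟨s, hs'⟩

variable {y p w κ κ' τ : ℝ → ℝ}

/-- positivity facts on a leaf -/
lemma leaf_pos (hyc : Continuous y)
    (hτ : ∀ θ, HasDerivAt τ (1 - 2 * p θ / (1 + y θ ^ 2)) θ) (hτs : ∀ θ, τ (θ + 2 * π) = τ θ + 2 * π)
    (h1 : ∀ θ, y (τ θ) - κ (τ θ) = y θ)
    (h2 : ∀ θ, w (τ θ) * (1 - 2 * p θ / (1 + y θ ^ 2)) = w θ)
    (h3 : ∀ θ, (p (τ θ) - κ' (τ θ)) * (1 - 2 * p θ / (1 + y θ ^ 2)) = p θ)
    (hw0 : ∀ θ, 0 < w θ) :
    (∀ θ, 0 < 1 - 2 * p θ / (1 + y θ ^ 2)) ∧ (∀ θ, 0 < 1 + y θ ^ 2 - p θ) ∧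
    (∀ θ, 0 < 1 + (y θ - κ θ) ^ 2 + p θ - κ' θ) ∧
    (∀ θ, 0 < (1 + (y θ - κ θ) ^ 2) + (1 + y θ ^ 2) - 2 * κ' θ) := by
  have ht : ∀ θ, 0 < 1 - 2 * p θ / (1 + y θ ^ 2) := by
    intro θ
    have e1 := h2 θ
    have e2 := hw0 θ
    have e3 := hw0 (τ θ)
    by_contra hneg
    push Not at hneg
    have : w (τ θ) * (1 - 2 * p θ / (1 + y θ ^ 2)) ≤ 0 :=
      mul_nonpos_of_nonneg_of_nonpos e3.le hneg
    linarith
  have hYp : ∀ θ, 0 < 1 + y θ ^ 2 := fun θ => by positivity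
  have h2p : ∀ θ, 0 < 1 + y θ ^ 2 - 2 * p θ := by
    intro θ
    have e1 := ht θ
    have e2 : 1 - 2 * p θ / (1 + y θ ^ 2) = (1 + y θ ^ 2 - 2 * p θ) / (1 + y θ ^ 2) := by
      have := (hYp θ).ne'
      field_simp
    rw [e2] at e1
    by_contra hneg
    push Not at hneg
    have := div_nonpos_of_nonpos_of_nonneg hneg (hYp θ).le
    linarith
  have hcont : Continuous τ := continuous_iff_continuousAt.2 fun θ => (hτ θ).continuousAt
  have hsurj := surjective_of_shift (by positivity : (0:ℝ) < 2 * π) hcont hτs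
  have hXq : ∀ θ, 0 < 1 + (y θ - κ θ) ^ 2 + 2 * (p θ - κ' θ) := by
    intro θ
    obtain ⟨φ, rfl⟩ := hsurj θ
    rw [h1 φ]
    have e1 := h3 φ
    set T := 1 - 2 * p φ / (1 + y φ ^ 2) with hT
    have hTp : 0 < T := ht φ
    have e2 : p φ = (1 + y φ ^ 2) * (1 - T) / 2 := by
      rw [hT]
      have := (hYp φ).ne'
      field_simp
      ring
    have e3 : p (τ φ) - κ' (τ φ) = (1 + y φ ^ 2) * (1 - T) / 2 / T := by
      rw [eq_div_iff hTp.ne', e1, e2]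
    rw [e3]
    have e4 : 1 + y φ ^ 2 + 2 * ((1 + y φ ^ 2) * (1 - T) / 2 / T) = (1 + y φ ^ 2) / T := by
      have := hTp.ne'
      field_simp
      ring
    rw [e4]
    exact div_pos (hYp φ) hTp
  refine ⟨ht, fun θ => ?_, fun θ => ?_, fun θ => ?_⟩
  · have := h2p θ
    have := hYp θ
    linarith
  · have := hXq θ
    have h5 : 0 < 1 + (y θ - κ θ) ^ 2 := by positivity
    linarith
  · have := hXq θ
    have := h2p θ
    linarith

/-- The Hopf identity on a leaf. -/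
theorem leaf_identity (hyc : Continuous y) (hpc : Continuous p) (hwc : Continuous w)
    (hκc : Continuous κ) (hκc' : Continuous κ')
    (hyp : ∀ θ, y (θ + 2 * π) = y θ) (hpp : ∀ θ, p (θ + 2 * π) = p θ) (hwp : ∀ θ, w (θ + 2 * π) = w θ)
    (hκp : ∀ θ, κ (θ + 2 * π) = κ θ) (hκp' : ∀ θ, κ' (θ + 2 * π) = κ' θ)
    (hτ : ∀ θ, HasDerivAt τ (1 - 2 * p θ / (1 + y θ ^ 2)) θ) (hτs : ∀ θ, τ (θ + 2 * π) = τ θ + 2 * π)
    (h1 : ∀ θ, y (τ θ) - κ (τ θ) = y θ)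
    (h2 : ∀ θ, w (τ θ) * (1 - 2 * p θ / (1 + y θ ^ 2)) = w θ)
    (h3 : ∀ θ, (p (τ θ) - κ' (τ θ)) * (1 - 2 * p θ / (1 + y θ ^ 2)) = p θ)
    (hw0 : ∀ θ, 0 < w θ) :
    ∫ θ in (0)..(2 * π), ((y θ - κ θ) ^ 2 / (1 + (y θ - κ θ) ^ 2) + y θ ^ 2 / (1 + y θ ^ 2) -
        (y θ - κ θ + y θ) ^ 2 / (1 + (y θ - κ θ) ^ 2 + (1 + y θ ^ 2) - κ' θ)) * w θ =
    ∫ θ in (0)..(2 * π), ((y θ * (1 + (y θ - κ θ) ^ 2 + p θ - κ' θ) -
        (y θ - κ θ) * (1 + y θ ^ 2 - p θ)) ^ 2 /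
        ((1 + y θ ^ 2 - p θ) * (1 + (y θ - κ θ) ^ 2 + p θ - κ' θ) *
          (1 + (y θ - κ θ) ^ 2 + (1 + y θ ^ 2) - κ' θ))) * w θ := by
  obtain ⟨ht, ha, hb, -⟩ := leaf_pos hyc hτ hτs h1 h2 h3 hw0
  have hYp : ∀ θ, 0 < 1 + y θ ^ 2 := fun θ => by positivity
  have hXp : ∀ θ, 0 < 1 + (y θ - κ θ) ^ 2 := fun θ => by positivity
  have hτπ : τ (2 * π) = τ 0 + 2 * π := by simpa using hτs 0
  have hτc' : Continuous fun θ => 1 - 2 * p θ / (1 + y θ ^ 2) := by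
    refine continuous_const.sub ((continuous_const.mul hpc).div₀ (by fun_prop) fun θ => (hYp θ).ne')
  -- first substitution
  have s1 : ∫ θ in (0)..(2 * π), y θ ^ 2 / (1 + y θ ^ 2 - p θ) * w θ =
      ∫ θ in (0)..(2 * π), (2 * ((y θ - κ θ) ^ 2 / (1 + (y θ - κ θ) ^ 2)) -
        (y θ - κ θ) ^ 2 / (1 + (y θ - κ θ) ^ 2 + p θ - κ' θ)) * w θ := by
    have hF : Continuous fun θ => (2 * ((y θ - κ θ) ^ 2 / (1 + (y θ - κ θ) ^ 2)) -
        (y θ - κ θ) ^ 2 / (1 + (y θ - κ θ) ^ 2 + p θ - κ' θ)) * w θ := by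
      have c1 : Continuous fun θ => (y θ - κ θ) ^ 2 / (1 + (y θ - κ θ) ^ 2) :=
        Continuous.div₀ (by fun_prop) (by fun_prop) fun θ => (hXp θ).ne'
      have c2 : Continuous fun θ => (y θ - κ θ) ^ 2 / (1 + (y θ - κ θ) ^ 2 + p θ - κ' θ) :=
        Continuous.div₀ (by fun_prop) (by fun_prop) fun θ => (hb θ).ne'
      exact ((continuous_const.mul c1).sub c2).mul hwc
    rw [← integral_comp_tau hτ hτc' hτπ hF (fun θ => by simp only [hyp, hκp, hpp, hκp', hwp])]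
    refine intervalIntegral.integral_congr fun φ _ => ?_
    rw [h1 φ, mul_assoc, h2 φ]
    congr 1
    have e1 := h3 φ
    set T := 1 - 2 * p φ / (1 + y φ ^ 2) with hT
    have hTp : 0 < T := ht φ
    have hYn := (hYp φ).ne'
    have e2 : p φ = (1 + y φ ^ 2) * (1 - T) / 2 := by
      rw [hT]
      field_simp
      ring
    have e3 : p (τ φ) - κ' (τ φ) = (1 + y φ ^ 2) * (1 - T) / 2 / T := by
      rw [eq_div_iff hTp.ne', e1, e2]
    have e4 : 1 + y φ ^ 2 + p (τ φ) - κ' (τ φ) = (1 + y φ ^ 2) * (1 + T) / (2 * T) := by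
      have : 1 + y φ ^ 2 + p (τ φ) - κ' (τ φ) = 1 + y φ ^ 2 + (p (τ φ) - κ' (τ φ)) := by ring
      rw [this, e3]
      have := hTp.ne'
      field_simp
      ring
    have e5 : 1 + y φ ^ 2 - p φ = (1 + y φ ^ 2) * (1 + T) / 2 := by
      rw [e2]; ring
    rw [e4, e5]
    have h1T : 1 + T ≠ 0 := by
      have : 0 < 1 + T := by linarith
      exact this.ne'
    have hTn := hTp.ne'
    field_simp
    ring
  have s2 : ∫ θ in (0)..(2 * π), y θ ^ 2 / (1 + y θ ^ 2) * w θ =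
      ∫ θ in (0)..(2 * π), ((y θ - κ θ) ^ 2 / (1 + (y θ - κ θ) ^ 2)) * w θ := by
    have hF : Continuous fun θ => ((y θ - κ θ) ^ 2 / (1 + (y θ - κ θ) ^ 2)) * w θ := by
      have c1 : Continuous fun θ => (y θ - κ θ) ^ 2 / (1 + (y θ - κ θ) ^ 2) :=
        Continuous.div₀ (by fun_prop) (by fun_prop) fun θ => (hXp θ).ne'
      exact c1.mul hwc
    rw [← integral_comp_tau hτ hτc' hτπ hF (fun θ => by simp only [hyp, hκp, hwp])]
    refine intervalIntegral.integral_congr fun φ _ => ?_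
    rw [h1 φ, mul_assoc, h2 φ]
  -- integrability
  have c1 : Continuous fun θ => (y θ - κ θ) ^ 2 / (1 + (y θ - κ θ) ^ 2) * w θ :=
    (Continuous.div₀ (by fun_prop) (by fun_prop) fun θ => (hXp θ).ne').mul hwc
  have c2 : Continuous fun θ => (y θ - κ θ) ^ 2 / (1 + (y θ - κ θ) ^ 2 + p θ - κ' θ) * w θ :=
    (Continuous.div₀ (by fun_prop) (by fun_prop) fun θ => (hb θ).ne').mul hwc
  have c3 : Continuous fun θ => y θ ^ 2 / (1 + y θ ^ 2 - p θ) * w θ :=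
    (Continuous.div₀ (by fun_prop) (by fun_prop) fun θ => (ha θ).ne').mul hwc
  have c4 : Continuous fun θ => y θ ^ 2 / (1 + y θ ^ 2) * w θ :=
    (Continuous.div₀ (by fun_prop) (by fun_prop) fun θ => (hYp θ).ne').mul hwc
  have hN : ∀ θ, 0 < 1 + (y θ - κ θ) ^ 2 + (1 + y θ ^ 2) - κ' θ := fun θ => by
    have := ha θ; have := hb θ; linarith
  have c5 : Continuous fun θ => ((y θ * (1 + (y θ - κ θ) ^ 2 + p θ - κ' θ) -
        (y θ - κ θ) * (1 + y θ ^ 2 - p θ)) ^ 2 /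
        ((1 + y θ ^ 2 - p θ) * (1 + (y θ - κ θ) ^ 2 + p θ - κ' θ) *
          (1 + (y θ - κ θ) ^ 2 + (1 + y θ ^ 2) - κ' θ))) * w θ :=
    (Continuous.div₀ (by fun_prop) (by fun_prop) fun θ =>
      (mul_pos (mul_pos (ha θ) (hb θ)) (hN θ)).ne').mul hwc
  -- pointwise algebra
  have hpt : ∀ θ, ((y θ - κ θ) ^ 2 / (1 + (y θ - κ θ) ^ 2) + y θ ^ 2 / (1 + y θ ^ 2) -
        (y θ - κ θ + y θ) ^ 2 / (1 + (y θ - κ θ) ^ 2 + (1 + y θ ^ 2) - κ' θ)) * w θ =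
      (((y θ - κ θ) ^ 2 / (1 + (y θ - κ θ) ^ 2) * w θ + y θ ^ 2 / (1 + y θ ^ 2) * w θ) -
        (y θ ^ 2 / (1 + y θ ^ 2 - p θ) * w θ +
          (y θ - κ θ) ^ 2 / (1 + (y θ - κ θ) ^ 2 + p θ - κ' θ) * w θ)) +
      ((y θ * (1 + (y θ - κ θ) ^ 2 + p θ - κ' θ) -
        (y θ - κ θ) * (1 + y θ ^ 2 - p θ)) ^ 2 /
        ((1 + y θ ^ 2 - p θ) * (1 + (y θ - κ θ) ^ 2 + p θ - κ' θ) *
          (1 + (y θ - κ θ) ^ 2 + (1 + y θ ^ 2) - κ' θ))) * w θ := by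
    intro θ
    have key : ∀ (x y a b : ℝ), 0 < a → 0 < b →
        (x + y) ^ 2 / (a + b) = y ^ 2 / a + x ^ 2 / b -
          (y * b - x * a) ^ 2 / (a * b * (a + b)) := by
      intro x y a b ha hb
      have hab : 0 < a + b := by linarith
      field_simp
      ring
    have e1 : 1 + (y θ - κ θ) ^ 2 + (1 + y θ ^ 2) - κ' θ =
        (1 + y θ ^ 2 - p θ) + (1 + (y θ - κ θ) ^ 2 + p θ - κ' θ) := by ring
    rw [e1, key _ _ _ _ (ha θ) (hb θ)]
    ring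
  rw [intervalIntegral.integral_congr (fun θ _ => hpt θ)]
  have i1 : IntervalIntegrable (fun θ => (y θ - κ θ) ^ 2 / (1 + (y θ - κ θ) ^ 2) * w θ)
    volume 0 (2 * π) := c1.intervalIntegrable _ _
  have i2 : IntervalIntegrable
    (fun θ => (y θ - κ θ) ^ 2 / (1 + (y θ - κ θ) ^ 2 + p θ - κ' θ) * w θ) volume 0 (2 * π) :=
    c2.intervalIntegrable _ _
  have i3 : IntervalIntegrable (fun θ => y θ ^ 2 / (1 + y θ ^ 2 - p θ) * w θ) volume 0 (2 * π) :=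
    c3.intervalIntegrable _ _
  have i4 : IntervalIntegrable (fun θ => y θ ^ 2 / (1 + y θ ^ 2) * w θ) volume 0 (2 * π) :=
    c4.intervalIntegrable _ _
  rw [intervalIntegral.integral_add ((i1.add i4).sub (i3.add i2)) (c5.intervalIntegrable _ _),
    intervalIntegral.integral_sub (i1.add i4) (i3.add i2), intervalIntegral.integral_add i1 i4,
    intervalIntegral.integral_add i3 i2]
  have s3 : ∫ θ in (0)..(2 * π), (2 * ((y θ - κ θ) ^ 2 / (1 + (y θ - κ θ) ^ 2)) -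
        (y θ - κ θ) ^ 2 / (1 + (y θ - κ θ) ^ 2 + p θ - κ' θ)) * w θ =
      2 * (∫ θ in (0)..(2 * π), (y θ - κ θ) ^ 2 / (1 + (y θ - κ θ) ^ 2) * w θ) -
      ∫ θ in (0)..(2 * π), (y θ - κ θ) ^ 2 / (1 + (y θ - κ θ) ^ 2 + p θ - κ' θ) * w θ := by
    rw [← intervalIntegral.integral_const_mul, ← intervalIntegral.integral_sub
      (i1.const_mul 2) i2]
    refine intervalIntegral.integral_congr fun θ _ => ?_
    ring
  rw [s1, s2, s3]
  ring

end Pool.Agent.MP_ae5b4e_an_total
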