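import Mathlib
import Pool.Agent.Lib.MP_ae5b4e_an.Wirtinger

/-!
Wirtinger's inequality for `2π`-periodic functions with mean zero, Minkowski's inequality for
mixed areas, and the planar Blaschke-Santalo inequality in support function form.
-/

noncomputable section

namespace Pool.Agent.MP_ae5b4e_an_total

open Real Set Filter Topology MeasureTheory intervalIntegral

/-- derivative of a periodic function is periodic -/
lemma deriv_per {f f' : ℝ → ℝ} {T : ℝ} (hf : ∀ θ, HasDerivAt f (f' θ) θ)
    (hper : ∀ θ, f (θ + T) = f θ) (θ : ℝ) : f' (θ + T) = f' θ := by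
  have h1 : HasDerivAt (fun t => f (t + T)) (f' (θ + T)) θ := by
    simpa using (hf (θ + T)).comp_add_const θ T
  have h2 : HasDerivAt (fun t => f (t + T)) (f' θ) θ := by
    have : (fun t => f (t + T)) = f := funext hper
    rw [this]
    exact hf θ
  exact h1.unique h2

/-- integral of a derivative of a periodic function -/
lemma integral_deriv_per {g g' : ℝ → ℝ} {T : ℝ} (hg : ∀ θ, HasDerivAt g (g' θ) θ)
    (hg' : Continuous g') (hper : g T = g 0) : ∫ θ in (0)..T, g' θ = 0 := by
  rw [intervalIntegral.integral_eq_sub_of_hasDerivAt (fun θ _ => hg θ)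
    (hg'.intervalIntegrable _ _), hper, sub_self]

/-- Wirtinger's inequality for periodic functions with mean zero. -/
theorem wirtinger_per {f f' : ℝ → ℝ} (hf : ∀ θ, HasDerivAt f (f' θ) θ) (hf' : Continuous f')
    (hper : ∀ θ, f (θ + 2 * π) = f θ) (hmean : ∫ θ in (0)..(2 * π), f θ = 0) :
    ∫ θ in (0)..(2 * π), (f θ ^ 2 - f' θ ^ 2) ≤ 0 := by
  have hfc : Continuous f := continuous_iff_continuousAt.2 fun θ => (hf θ).continuousAt
  -- a point with `f z = f (z + π)`
  obtain ⟨z, hz⟩ : ∃ z, f (z + π) - f z = 0 := by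
    have hgc : Continuous fun t => f (t + π) - f t := by fun_prop
    have h1 : f (π + π) - f π = -(f (0 + π) - f 0) := by
      have := hper 0
      have e : π + π = 0 + 2 * π := by ring
      rw [e, this, zero_add]; ring
    have hmem : (0:ℝ) ∈ uIcc (f (0 + π) - f 0) (f (π + π) - f π) := by
      rw [h1]
      rcases le_total 0 (f (0 + π) - f 0) with h | h
      · exact mem_uIcc.2 (Or.inr ⟨by linarith, h⟩)
      · exact mem_uIcc.2 (Or.inl ⟨h, by linarith⟩)
    obtain ⟨z, -, hz⟩ := intermediate_value_uIcc (f := fun t => f (t + π) - f t)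
      hgc.continuousOn hmem
    exact ⟨z, hz⟩
  set c := f z with hc
  have hz1 : f (z + π) = c := by linarith
  have hz2 : f (z + 2 * π) = c := hper z
  -- the two halves
  have key : ∀ s, f s = c → f (s + π) = c →
      0 ≤ ∫ θ in s..(s + π), (f' θ ^ 2 - (f θ - c) ^ 2) := by
    intro s h1 h2
    have hv : ∀ θ, HasDerivAt (fun t => f (t + s) - c) (f' (θ + s)) θ := fun θ => by
      simpa using ((hf (θ + s)).comp_add_const θ s).sub_const c
    have h3 := MP_ae5b4e_an.wirtinger_nonneg_aux (w := fun t => f (t + s) - c)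
      (w' := fun t => f' (t + s)) hv (by fun_prop) (by simp [h1])
      (by simp only [add_comm π s, h2, sub_self])
    have h4 : ∫ θ in (0)..π, (f' (θ + s) ^ 2 - (f (θ + s) - c) ^ 2) =
        ∫ θ in (0 + s)..(π + s), (f' θ ^ 2 - (f θ - c) ^ 2) := by
      rw [← intervalIntegral.integral_comp_add_right (fun θ => f' θ ^ 2 - (f θ - c) ^ 2)]
    rw [h4, zero_add, add_comm π s] at h3
    exact h3
  have k1 := key z rfl hz1
  have k2 := key (z + π) hz1 (by rw [add_assoc, ← two_mul]; exact hz2)
  have hF : Continuous fun θ => f' θ ^ 2 - (f θ - c) ^ 2 := by fun_prop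
  have hsum : ∫ θ in z..(z + 2 * π), (f' θ ^ 2 - (f θ - c) ^ 2) =
      (∫ θ in z..(z + π), (f' θ ^ 2 - (f θ - c) ^ 2)) +
      ∫ θ in (z + π)..(z + π + π), (f' θ ^ 2 - (f θ - c) ^ 2) := by
    rw [intervalIntegral.integral_add_adjacent_intervals (hF.intervalIntegrable _ _)
      (hF.intervalIntegrable _ _)]
    congr 1
    ring
  have hperF : Function.Periodic (fun θ => f' θ ^ 2 - (f θ - c) ^ 2) (2 * π) := by
    intro θ
    simp only [hper θ, deriv_per hf hper θ]
  have hshift : ∫ θ in z..(z + 2 * π), (f' θ ^ 2 - (f θ - c) ^ 2) =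
      ∫ θ in (0)..(2 * π), (f' θ ^ 2 - (f θ - c) ^ 2) := by
    have := hperF.intervalIntegral_add_eq z 0
    simpa using this
  have hexp : ∫ θ in (0)..(2 * π), (f' θ ^ 2 - (f θ - c) ^ 2) =
      -(∫ θ in (0)..(2 * π), (f θ ^ 2 - f' θ ^ 2)) + 2 * c * (∫ θ in (0)..(2 * π), f θ) -
        2 * π * c ^ 2 := by
    have i1 : IntervalIntegrable (fun θ => -(f θ ^ 2 - f' θ ^ 2)) volume 0 (2 * π) :=
      (by fun_prop : Continuous fun θ => -(f θ ^ 2 - f' θ ^ 2)).intervalIntegrable _ _
    have i2 : IntervalIntegrable (fun θ => 2 * c * f θ) volume 0 (2 * π) :=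
      (by fun_prop : Continuous fun θ => 2 * c * f θ).intervalIntegrable _ _
    have i3 : IntervalIntegrable (fun _ : ℝ => c ^ 2) volume 0 (2 * π) :=
      continuous_const.intervalIntegrable _ _
    have e : ∀ θ, f' θ ^ 2 - (f θ - c) ^ 2 =
        (-(f θ ^ 2 - f' θ ^ 2) + 2 * c * f θ) - c ^ 2 := fun θ => by ring
    simp_rw [e]
    rw [intervalIntegral.integral_sub (i1.add i2) i3, intervalIntegral.integral_add i1 i2,
      intervalIntegral.integral_neg, intervalIntegral.integral_const_mul,
      intervalIntegral.integral_const]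
    simp
  rw [hmean] at hexp
  have : 0 ≤ 2 * π * c ^ 2 := by positivity
  linarith

/-- Minkowski's inequality: a function that is orthogonal to the curvature `ρ = z + z''` of a body
has nonpositive area. -/
theorem minkowski {f f' ρ z z' : ℝ → ℝ} (hf : ∀ θ, HasDerivAt f (f' θ) θ) (hf' : Continuous f')
    (hper : ∀ θ, f (θ + 2 * π) = f θ) (hρ : Continuous ρ)
    (hz : ∀ θ, HasDerivAt z (z' θ) θ) (hz' : ∀ θ, HasDerivAt z' (ρ θ - z θ) θ)
    (hzper : ∀ θ, z (θ + 2 * π) = z θ)
    (hzz : 0 ≤ ∫ θ in (0)..(2 * π), z θ * ρ θ) (hpos : 0 < ∫ θ in (0)..(2 * π), ρ θ)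
    (horth : ∫ θ in (0)..(2 * π), f θ * ρ θ = 0) :
    ∫ θ in (0)..(2 * π), (f θ ^ 2 - f' θ ^ 2) ≤ 0 := by
  have hfc : Continuous f := continuous_iff_continuousAt.2 fun θ => (hf θ).continuousAt
  have hzc : Continuous z := continuous_iff_continuousAt.2 fun θ => (hz θ).continuousAt
  have hzc' : Continuous z' := continuous_iff_continuousAt.2 fun θ => (hz' θ).continuousAt
  have hzper' := deriv_per hz hzper
  have hf0 : f (2 * π) = f 0 := by simpa using hper 0
  have hz0 : z (2 * π) = z 0 := by simpa using hzper 0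
  have hz0' : z' (2 * π) = z' 0 := by simpa using hzper' 0
  have ii : ∀ {g : ℝ → ℝ}, Continuous g → IntervalIntegrable g volume 0 (2 * π) :=
    fun hg => hg.intervalIntegrable _ _
  -- ∫ z = ∫ ρ
  have hIz : ∫ θ in (0)..(2 * π), z θ = ∫ θ in (0)..(2 * π), ρ θ := by
    have h1 := integral_deriv_per hz' (by fun_prop) hz0'
    rw [intervalIntegral.integral_sub (ii hρ) (ii hzc)] at h1
    linarith
  -- ∫ (f z - f' z') = 0
  have hfz : ∫ θ in (0)..(2 * π), (f θ * z θ - f' θ * z' θ) = 0 := by
    have h1 : ∫ θ in (0)..(2 * π), (f' θ * z' θ + f θ * (ρ θ - z θ)) = 0 :=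
      integral_deriv_per (g := fun θ => f θ * z' θ) (fun θ => (hf θ).mul (hz' θ))
        (by fun_prop) (by simp [hf0, hz0'])
    have e : ∀ θ, f θ * z θ - f' θ * z' θ =
        f θ * ρ θ - (f' θ * z' θ + f θ * (ρ θ - z θ)) := fun θ => by ring
    simp_rw [e]
    rw [intervalIntegral.integral_sub (ii (by fun_prop)) (ii (by fun_prop)), horth, h1, sub_zero]
  -- ∫ (z^2 - z'^2) = ∫ z ρ
  have hzzv : ∫ θ in (0)..(2 * π), (z θ ^ 2 - z' θ ^ 2) = ∫ θ in (0)..(2 * π), z θ * ρ θ := by
    have h1 : ∫ θ in (0)..(2 * π), (z' θ * z' θ + z θ * (ρ θ - z θ)) = 0 :=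
      integral_deriv_per (g := fun θ => z θ * z' θ) (fun θ => (hz θ).mul (hz' θ))
        (by fun_prop) (by simp [hz0, hz0'])
    have e : ∀ θ, z θ ^ 2 - z' θ ^ 2 =
        z θ * ρ θ - (z' θ * z' θ + z θ * (ρ θ - z θ)) := fun θ => by ring
    simp_rw [e]
    rw [intervalIntegral.integral_sub (ii (by fun_prop)) (ii (by fun_prop)), h1, sub_zero]
  set l := (∫ θ in (0)..(2 * π), f θ) / (∫ θ in (0)..(2 * π), z θ) with hl
  have hIzpos : 0 < ∫ θ in (0)..(2 * π), z θ := by rw [hIz]; exact hpos
  have hgm : ∫ θ in (0)..(2 * π), (f θ - l * z θ) = 0 := by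
    rw [intervalIntegral.integral_sub (ii hfc) (ii (by fun_prop)),
      intervalIntegral.integral_const_mul, hl, div_mul_cancel₀ _ hIzpos.ne', sub_self]
  have hw := wirtinger_per (f := fun θ => f θ - l * z θ) (f' := fun θ => f' θ - l * z' θ)
    (fun θ => (hf θ).sub ((hz θ).const_mul l)) (by fun_prop)
    (fun θ => by simp only [hper, hzper]) hgm
  have e : ∀ θ, (f θ - l * z θ) ^ 2 - (f' θ - l * z' θ) ^ 2 =
      (f θ ^ 2 - f' θ ^ 2) - 2 * l * (f θ * z θ - f' θ * z' θ) +
        l ^ 2 * (z θ ^ 2 - z' θ ^ 2) := fun θ => by ring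
  simp_rw [e] at hw
  rw [intervalIntegral.integral_add (ii (by fun_prop)) (ii (by fun_prop)),
    intervalIntegral.integral_sub (ii (by fun_prop)) (ii (by fun_prop)),
    intervalIntegral.integral_const_mul, intervalIntegral.integral_const_mul, hfz, hzzv] at hw
  have : 0 ≤ l ^ 2 * ∫ θ in (0)..(2 * π), z θ * ρ θ := by positivity
  linarith

/-- Existence of the body with a given curvature. -/
theorem exists_body {ρ : ℝ → ℝ} (hρ : Continuous ρ) (hper : ∀ θ, ρ (θ + 2 * π) = ρ θ)
    (hpos : ∀ θ, 0 < ρ θ) (hc : ∫ θ in (0)..(2 * π), ρ θ * cos θ = 0)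
    (hs : ∫ θ in (0)..(2 * π), ρ θ * sin θ = 0) :
    ∃ z z' : ℝ → ℝ, (∀ θ, HasDerivAt z (z' θ) θ) ∧ (∀ θ, HasDerivAt z' (ρ θ - z θ) θ) ∧
      (∀ θ, z (θ + 2 * π) = z θ) ∧ 0 ≤ ∫ θ in (0)..(2 * π), z θ * ρ θ := by
  set A : ℝ → ℝ := fun θ => ∫ s in (0)..θ, ρ s * cos s with hA
  set B : ℝ → ℝ := fun θ => ∫ s in (0)..θ, ρ s * sin s with hB
  have hcc : Continuous fun s => ρ s * cos s := by fun_prop
  have hsc : Continuous fun s => ρ s * sin s := by fun_prop
  have hAd : ∀ θ, HasDerivAt A (ρ θ * cos θ) θ := fun θ =>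
    intervalIntegral.integral_hasDerivAt_right (hcc.intervalIntegrable _ _)
      hcc.aestronglyMeasurable.stronglyMeasurableAtFilter hcc.continuousAt
  have hBd : ∀ θ, HasDerivAt B (ρ θ * sin θ) θ := fun θ =>
    intervalIntegral.integral_hasDerivAt_right (hsc.intervalIntegrable _ _)
      hsc.aestronglyMeasurable.stronglyMeasurableAtFilter hsc.continuousAt
  have hAper : ∀ θ, A (θ + 2 * π) = A θ := by
    intro θ
    have hp : Function.Periodic (fun s => ρ s * cos s) (2 * π) := by
      intro s; simp only [hper, cos_add_two_pi]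
    have h1 := hp.intervalIntegral_add_eq 0 θ
    rw [zero_add, hc] at h1
    simp only [hA]
    rw [← intervalIntegral.integral_add_adjacent_intervals (hcc.intervalIntegrable 0 θ)
      (hcc.intervalIntegrable θ (θ + 2 * π)), ← h1, add_zero]
  have hBper : ∀ θ, B (θ + 2 * π) = B θ := by
    intro θ
    have hp : Function.Periodic (fun s => ρ s * sin s) (2 * π) := by
      intro s; simp only [hper, sin_add_two_pi]
    have h1 := hp.intervalIntegral_add_eq 0 θ
    rw [zero_add, hs] at h1
    simp only [hB]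
    rw [← intervalIntegral.integral_add_adjacent_intervals (hsc.intervalIntegrable 0 θ)
      (hsc.intervalIntegrable θ (θ + 2 * π)), ← h1, add_zero]
  have hz1 : ∀ θ, HasDerivAt (fun θ => sin θ * A θ - cos θ * B θ)
      (cos θ * A θ + sin θ * B θ) θ := by
    intro θ
    refine (((hasDerivAt_sin θ).mul (hAd θ)).sub ((hasDerivAt_cos θ).mul (hBd θ))).congr_deriv ?_
    ring
  have hz2 : ∀ θ, HasDerivAt (fun θ => cos θ * A θ + sin θ * B θ)
      (ρ θ - (sin θ * A θ - cos θ * B θ)) θ := by
    intro θ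
    refine (((hasDerivAt_cos θ).mul (hAd θ)).add ((hasDerivAt_sin θ).mul (hBd θ))).congr_deriv ?_
    have := sin_sq_add_cos_sq θ
    linear_combination ρ θ * this
  refine ⟨fun θ => sin θ * A θ - cos θ * B θ, fun θ => cos θ * A θ + sin θ * B θ, hz1, hz2, ?_, ?_⟩
  · intro θ
    simp only [hAper, hBper, sin_add_two_pi, cos_add_two_pi]
  · refine intervalIntegral.integral_nonneg (by positivity) fun θ hθ => ?_
    refine mul_nonneg ?_ (hpos θ).le
    have hform : ∀ a b, sin θ * (∫ s in a..b, ρ s * cos s) - cos θ * (∫ s in a..b, ρ s * sin s) =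
        ∫ s in a..b, ρ s * sin (θ - s) := by
      intro a b
      rw [← intervalIntegral.integral_const_mul, ← intervalIntegral.integral_const_mul,
        ← intervalIntegral.integral_sub ((by fun_prop : Continuous fun s =>
          sin θ * (ρ s * cos s)).intervalIntegrable _ _)
          ((by fun_prop : Continuous fun s => cos θ * (ρ s * sin s)).intervalIntegrable _ _)]
      refine intervalIntegral.integral_congr fun s _ => ?_
      simp only [sin_sub]
      ring
    rcases le_total θ π with h | h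
    · simp only [hA, hB]
      rw [hform]
      refine intervalIntegral.integral_nonneg hθ.1 fun s hs => ?_
      exact mul_nonneg (hpos s).le (sin_nonneg_of_nonneg_of_le_pi (by linarith [hs.2])
        (by linarith [hs.1]))
    · have e1 : A θ = -∫ s in θ..(2 * π), ρ s * cos s := by
        have := intervalIntegral.integral_add_adjacent_intervals
          (hcc.intervalIntegrable 0 θ) (hcc.intervalIntegrable θ (2 * π)) (μ := volume)
        simp only [hA]
        linarith
      have e2 : B θ = -∫ s in θ..(2 * π), ρ s * sin s := by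
        have := intervalIntegral.integral_add_adjacent_intervals
          (hsc.intervalIntegrable 0 θ) (hsc.intervalIntegrable θ (2 * π)) (μ := volume)
        simp only [hB]
        linarith
      have e3 : sin θ * A θ - cos θ * B θ = -∫ s in θ..(2 * π), ρ s * sin (θ - s) := by
        rw [← hform, e1, e2]; ring
      show 0 ≤ sin θ * A θ - cos θ * B θ
      rw [e3, ← intervalIntegral.integral_neg]
      refine intervalIntegral.integral_nonneg hθ.2 fun s hs => ?_
      have e4 : sin (θ - s) = -sin (s - θ) := by rw [← sin_neg]; ring_nf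
      rw [e4]
      have : 0 ≤ sin (s - θ) := sin_nonneg_of_nonneg_of_le_pi (by linarith [hs.1])
        (by linarith [hs.2])
      have := mul_nonneg (hpos s).le this
      linarith

end Pool.Agent.MP_ae5b4e_an_total
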