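import Mathlib
import Pool.Agent.Lib.MP_ae5b4e_an_total.Wirt

/-!
The planar Blaschke-Santalo inequality, in the form used for the rigidity theorem.
-/

noncomputable section

namespace Pool.Agent.MP_ae5b4e_an_total

open Real Set Filter Topology MeasureTheory intervalIntegral

/-- Blaschke-Santalo: if `w` is a positive `2π`-periodic function with `w' = -κ w / 2` such that
the polar body has its centroid at the origin (`∫ w⁻³ e = 0`), then
`∫ √((w + w'') / w) ≤ 2π`. -/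
theorem blaschke_santalo {w κ κ' : ℝ → ℝ} (hw : ∀ θ, HasDerivAt w (-(κ θ / 2) * w θ) θ)
    (hw0 : ∀ θ, 0 < w θ) (hκ : ∀ θ, HasDerivAt κ (κ' θ) θ) (hκ' : Continuous κ')
    (hper : ∀ θ, w (θ + 2 * π) = w θ) (hκper : ∀ θ, κ (θ + 2 * π) = κ θ)
    (hk2 : ∀ θ, 0 ≤ 1 + κ θ ^ 2 / 4 - κ' θ / 2)
    (hc : ∫ θ in (0)..(2 * π), (w θ ^ 3)⁻¹ * cos θ = 0)
    (hs : ∫ θ in (0)..(2 * π), (w θ ^ 3)⁻¹ * sin θ = 0) :
    ∫ θ in (0)..(2 * π), √(1 + κ θ ^ 2 / 4 - κ' θ / 2) ≤ 2 * π := by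
  have hwc : Continuous w := continuous_iff_continuousAt.2 fun θ => (hw θ).continuousAt
  have hκc : Continuous κ := continuous_iff_continuousAt.2 fun θ => (hκ θ).continuousAt
  have hpi : (0:ℝ) < 2 * π := by positivity
  have hρc : Continuous fun θ => (w θ ^ 3)⁻¹ :=
    (hwc.pow 3).inv₀ fun θ => (pow_pos (hw0 θ) 3).ne'
  have hic : Continuous fun θ => (w θ ^ 2)⁻¹ :=
    (hwc.pow 2).inv₀ fun θ => (pow_pos (hw0 θ) 2).ne'
  have hjc : Continuous fun θ => (w θ)⁻¹ := hwc.inv₀ fun θ => (hw0 θ).ne'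
  have ii : ∀ {g : ℝ → ℝ}, Continuous g → IntervalIntegrable g volume 0 (2 * π) :=
    fun hg => hg.intervalIntegrable _ _
  obtain ⟨z, z', hz, hz', hzper, hzz⟩ := exists_body hρc (fun θ => by simp only [hper])
    (fun θ => inv_pos.2 (pow_pos (hw0 θ) 3)) hc hs
  have hρpos : 0 < ∫ θ in (0)..(2 * π), (w θ ^ 3)⁻¹ :=
    intervalIntegral.intervalIntegral_pos_of_pos (ii hρc)
      (fun θ => inv_pos.2 (pow_pos (hw0 θ) 3)) hpi
  set T := ∫ θ in (0)..(2 * π), (w θ ^ 2)⁻¹ with hT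
  have hTpos : 0 < T :=
    intervalIntegral.intervalIntegral_pos_of_pos (ii hic)
      (fun θ => inv_pos.2 (pow_pos (hw0 θ) 2)) hpi
  set a := 2 * π / T with ha
  have hapos : 0 < a := by positivity
  have haT : a * T = 2 * π := by rw [ha]; field_simp
  set t : ℝ → ℝ := fun θ => a * ∫ s in (0)..θ, (w s ^ 2)⁻¹ with ht
  have htd : ∀ θ, HasDerivAt t (a * (w θ ^ 2)⁻¹) θ := fun θ =>
    (intervalIntegral.integral_hasDerivAt_right (hic.intervalIntegrable _ _)
      hic.aestronglyMeasurable.stronglyMeasurableAtFilter hic.continuousAt).const_mul a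
  have htc : Continuous t := continuous_iff_continuousAt.2 fun θ => (htd θ).continuousAt
  have htper : ∀ θ, t (θ + 2 * π) = t θ + 2 * π := by
    intro θ
    have hp : Function.Periodic (fun s => (w s ^ 2)⁻¹) (2 * π) := by
      intro s; simp only [hper]
    have h1 := hp.intervalIntegral_add_eq 0 θ
    rw [zero_add] at h1
    simp only [ht]
    rw [← intervalIntegral.integral_add_adjacent_intervals (hic.intervalIntegrable 0 θ)
      (hic.intervalIntegrable θ (θ + 2 * π)), ← h1, ← hT, mul_add, haT]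
  -- the two test functions
  have hf1 : ∀ θ, HasDerivAt (fun θ => w θ * cos (t θ))
      (-(κ θ / 2) * w θ * cos (t θ) - a * (w θ)⁻¹ * sin (t θ)) θ := by
    intro θ
    refine ((hw θ).mul ((hasDerivAt_cos (t θ)).comp θ (htd θ))).congr_deriv ?_
    have := (hw0 θ).ne'
    simp only [Function.comp]
    field_simp
    ring
  have hf2 : ∀ θ, HasDerivAt (fun θ => w θ * sin (t θ))
      (-(κ θ / 2) * w θ * sin (t θ) + a * (w θ)⁻¹ * cos (t θ)) θ := by
    intro θ
    refine ((hw θ).mul ((hasDerivAt_sin (t θ)).comp θ (htd θ))).congr_deriv ?_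
    have := (hw0 θ).ne'
    simp only [Function.comp]
    field_simp
  have o1 : ∫ θ in (0)..(2 * π), w θ * cos (t θ) * (w θ ^ 3)⁻¹ = 0 := by
    have h1 : ∫ θ in (0)..(2 * π), (cos (t θ) * (a * (w θ ^ 2)⁻¹)) = 0 := by
      refine integral_deriv_per (g := fun θ => sin (t θ)) (fun θ =>
        (hasDerivAt_sin (t θ)).comp θ (htd θ)) (by fun_prop) ?_
      have := htper 0
      rw [zero_add] at this
      rw [this, sin_add_two_pi]
    have h2 : ∀ θ, w θ * cos (t θ) * (w θ ^ 3)⁻¹ = a⁻¹ * (cos (t θ) * (a * (w θ ^ 2)⁻¹)) := by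
      intro θ
      have := (hw0 θ).ne'
      field_simp
    simp_rw [h2]
    rw [intervalIntegral.integral_const_mul, h1, mul_zero]
  have o2 : ∫ θ in (0)..(2 * π), w θ * sin (t θ) * (w θ ^ 3)⁻¹ = 0 := by
    have h1 : ∫ θ in (0)..(2 * π), (-sin (t θ) * (a * (w θ ^ 2)⁻¹)) = 0 := by
      refine integral_deriv_per (g := fun θ => cos (t θ)) (fun θ =>
        (hasDerivAt_cos (t θ)).comp θ (htd θ)) (by fun_prop) ?_
      have := htper 0
      rw [zero_add] at this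
      rw [this, cos_add_two_pi]
    have h2 : ∀ θ, w θ * sin (t θ) * (w θ ^ 3)⁻¹ =
        -a⁻¹ * (-sin (t θ) * (a * (w θ ^ 2)⁻¹)) := by
      intro θ
      have := (hw0 θ).ne'
      field_simp
    simp_rw [h2]
    rw [intervalIntegral.integral_const_mul, h1, mul_zero]
  have m1 := minkowski hf1 (by fun_prop) (fun θ => by simp only [hper, htper, cos_add_two_pi])
    hρc hz hz' hzper hzz hρpos o1
  have m2 := minkowski hf2 (by fun_prop) (fun θ => by simp only [hper, htper, sin_add_two_pi])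
    hρc hz hz' hzper hzz hρpos o2
  -- the area of the body
  have harea : ∫ θ in (0)..(2 * π), w θ ^ 2 * (1 + κ θ ^ 2 / 4 - κ' θ / 2) ≤ a * (2 * π) := by
    have h1 : ∫ θ in (0)..(2 * π), (-(κ' θ / 2) * w θ ^ 2 + κ θ ^ 2 / 2 * w θ ^ 2) = 0 := by
      refine integral_deriv_per (g := fun θ => -(κ θ / 2) * w θ ^ 2) (fun θ => ?_)
        (by fun_prop) ?_
      · refine ((((hκ θ).div_const 2).neg).mul ((hw θ).pow 2)).congr_deriv ?_
        simp only [Pi.neg_apply, Pi.pow_apply]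
        push_cast
        ring
      · have e1 := hper 0
        have e2 := hκper 0
        rw [zero_add] at e1 e2
        rw [e1, e2]
    have h2 : (∫ θ in (0)..(2 * π), ((w θ * cos (t θ)) ^ 2 -
          (-(κ θ / 2) * w θ * cos (t θ) - a * (w θ)⁻¹ * sin (t θ)) ^ 2)) +
        (∫ θ in (0)..(2 * π), ((w θ * sin (t θ)) ^ 2 -
          (-(κ θ / 2) * w θ * sin (t θ) + a * (w θ)⁻¹ * cos (t θ)) ^ 2)) =
        (∫ θ in (0)..(2 * π), w θ ^ 2 * (1 + κ θ ^ 2 / 4 - κ' θ / 2)) -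
        (∫ θ in (0)..(2 * π), (-(κ' θ / 2) * w θ ^ 2 + κ θ ^ 2 / 2 * w θ ^ 2)) -
        a ^ 2 * T := by
      rw [hT, ← intervalIntegral.integral_const_mul, ← intervalIntegral.integral_add
        (ii (by fun_prop)) (ii (by fun_prop)), ← intervalIntegral.integral_sub
        (ii (by fun_prop)) (ii (by fun_prop)), ← intervalIntegral.integral_sub
        (ii (by fun_prop)) (ii (by fun_prop))]
      refine intervalIntegral.integral_congr fun θ _ => ?_
      have hne := (hw0 θ).ne'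
      have hcs := sin_sq_add_cos_sq (t θ)
      have e1 : (w θ ^ 2)⁻¹ = ((w θ)⁻¹) ^ 2 := by rw [inv_pow]
      have e2 : w θ * (w θ)⁻¹ = 1 := mul_inv_cancel₀ hne
      simp only [e1]
      linear_combination (w θ ^ 2 - κ θ ^ 2 / 4 * w θ ^ 2 - a ^ 2 * ((w θ)⁻¹) ^ 2) * hcs
    rw [h1, sub_zero] at h2
    have h3 : a ^ 2 * T = a * (2 * π) := by rw [← haT]; ring
    linarith
  -- Cauchy-Schwarz
  have hkc : Continuous fun θ => √(1 + κ θ ^ 2 / 4 - κ' θ / 2) := by fun_prop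
  have hpt : ∀ θ ∈ Icc (0:ℝ) (2 * π), √(1 + κ θ ^ 2 / 4 - κ' θ / 2) ≤
      (2 * a)⁻¹ * (w θ ^ 2 * (1 + κ θ ^ 2 / 4 - κ' θ / 2)) + a / 2 * (w θ ^ 2)⁻¹ := by
    intro θ _
    set K := √(1 + κ θ ^ 2 / 4 - κ' θ / 2) with hK
    have hK2 : K ^ 2 = 1 + κ θ ^ 2 / 4 - κ' θ / 2 := sq_sqrt (hk2 θ)
    rw [← hK2]
    have hne := hw0 θ
    have h1 : (2 * a)⁻¹ * (w θ ^ 2 * K ^ 2) + a / 2 * (w θ ^ 2)⁻¹ - K =
        (w θ ^ 2 * K - a) ^ 2 / (2 * a * w θ ^ 2) := by
      field_simp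
      ring
    have h2 : 0 ≤ (w θ ^ 2 * K - a) ^ 2 / (2 * a * w θ ^ 2) := by positivity
    linarith
  have hfin := intervalIntegral.integral_mono_on hpi.le (ii hkc)
    (ii (by fun_prop : Continuous fun θ =>
      (2 * a)⁻¹ * (w θ ^ 2 * (1 + κ θ ^ 2 / 4 - κ' θ / 2)) + a / 2 * (w θ ^ 2)⁻¹)) hpt
  rw [intervalIntegral.integral_add (ii (by fun_prop)) (ii (by fun_prop)),
    intervalIntegral.integral_const_mul, intervalIntegral.integral_const_mul, ← hT] at hfin
  have h5 : (2 * a)⁻¹ * (∫ θ in (0)..(2 * π), w θ ^ 2 * (1 + κ θ ^ 2 / 4 - κ' θ / 2)) ≤ π := by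
    have h6 := mul_le_mul_of_nonneg_left harea (inv_nonneg.2 (by positivity : 0 ≤ 2 * a))
    have h7 : (2 * a)⁻¹ * (a * (2 * π)) = π := by field_simp
    linarith
  have h8 : a / 2 * T = π := by
    have : a / 2 * T = a * T / 2 := by ring
    rw [this, haT]; ring
  linarith

end Pool.Agent.MP_ae5b4e_an_total
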