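import Mathlib
import Pool.Agent.Lib.MP_ae5b4e_an_total.Leaf

/-!
Families of curves around the unit circle in the coordinate `u` (the inverse of the signed
distance to the tangency point) on the tangent lines.
-/

noncomputable section

namespace Pool.Agent.MP_ae5b4e_an_total

open Real Set Filter Topology MeasureTheory

/-- The angle of the second tangency point, seen from the point with coordinate `U c θ` on the
tangent line at `θ`. -/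
def nxt (U : ℝ → ℝ → ℝ) (c θ : ℝ) : ℝ := θ + π - 2 * arctan (U c θ)

/-- The hypotheses used in the analysis. -/
structure Fam (U : ℝ → ℝ → ℝ) (κ : ℝ → ℝ) : Prop where
  smooth : ContDiffOn ℝ 1 (fun q : ℝ × ℝ => U q.1 q.2) (Ioo 0 1 ×ˢ univ)
  per : ∀ c ∈ Ioo (0:ℝ) 1, ∀ θ, U c (θ + 2 * π) = U c θ
  mono : ∀ c ∈ Ioo (0:ℝ) 1, ∀ θ, deriv (fun t => U t θ) c < 0
  lim0 : ∀ θ, Tendsto (fun c => U c θ) (𝓝[>] 0) atTop
  lim1 : ∀ θ, Tendsto (fun c => U c θ) (𝓝[<] 1) (𝓝 (κ θ / 2))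
  feq : ∀ c ∈ Ioo (0:ℝ) 1, ∀ θ, U c (nxt U c θ) - κ (nxt U c θ) = U c θ

/-- `U` as a function on the plane -/
def Uf (U : ℝ → ℝ → ℝ) (q : ℝ × ℝ) : ℝ := U q.1 q.2

/-- derivative in the parameter of the leaf -/
def D1 (U : ℝ → ℝ → ℝ) (q : ℝ × ℝ) : ℝ := fderiv ℝ (Uf U) q (1, 0)

/-- derivative in the angle -/
def D2 (U : ℝ → ℝ → ℝ) (q : ℝ × ℝ) : ℝ := fderiv ℝ (Uf U) q (0, 1)

variable {U : ℝ → ℝ → ℝ} {κ : ℝ → ℝ}

lemma isOpen_dom : IsOpen (Ioo (0:ℝ) 1 ×ˢ (univ : Set ℝ)) := isOpen_Ioo.prod isOpen_univ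

namespace Fam

variable (h : Fam U κ)
include h

lemma contDiffOn : ContDiffOn ℝ 1 (Uf U) (Ioo 0 1 ×ˢ univ) := h.smooth

lemma contDiffAt {q : ℝ × ℝ} (hq : q.1 ∈ Ioo (0:ℝ) 1) : ContDiffAt ℝ 1 (Uf U) q :=
  h.contDiffOn.contDiffAt (isOpen_dom.mem_nhds ⟨hq, mem_univ _⟩)

lemma hasFDerivAt {q : ℝ × ℝ} (hq : q.1 ∈ Ioo (0:ℝ) 1) :
    HasFDerivAt (Uf U) (fderiv ℝ (Uf U) q) q :=
  ((h.contDiffAt hq).differentiableAt one_ne_zero).hasFDerivAt

lemma continuousOn_D1 : ContinuousOn (D1 U) (Ioo 0 1 ×ˢ univ) :=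
  (h.contDiffOn.continuousOn_fderiv_of_isOpen isOpen_dom le_rfl).clm_apply continuousOn_const

lemma continuousOn_D2 : ContinuousOn (D2 U) (Ioo 0 1 ×ˢ univ) :=
  (h.contDiffOn.continuousOn_fderiv_of_isOpen isOpen_dom le_rfl).clm_apply continuousOn_const

lemma continuousOn_Uf : ContinuousOn (Uf U) (Ioo 0 1 ×ˢ univ) := h.contDiffOn.continuousOn

omit h in
lemma continuous_slice {F : ℝ × ℝ → ℝ} (hF : ContinuousOn F (Ioo 0 1 ×ˢ univ)) {c : ℝ}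
    (hc : c ∈ Ioo (0:ℝ) 1) : Continuous fun θ => F (c, θ) :=
  hF.comp_continuous (by fun_prop) fun θ => ⟨hc, mem_univ _⟩

/-- chain rule along a curve -/
lemma hasDerivAt_comp {γ₁ γ₂ : ℝ → ℝ} {a b t : ℝ} (h1 : HasDerivAt γ₁ a t)
    (h2 : HasDerivAt γ₂ b t) (hm : γ₁ t ∈ Ioo (0:ℝ) 1) :
    HasDerivAt (fun s => Uf U (γ₁ s, γ₂ s)) (a * D1 U (γ₁ t, γ₂ t) + b * D2 U (γ₁ t, γ₂ t)) t := by
  have h3 := (h.hasFDerivAt (q := (γ₁ t, γ₂ t)) hm).comp_hasDerivAt t (h1.prodMk h2)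
  refine h3.congr_deriv ?_
  have e : ((a, b) : ℝ × ℝ) = a • ((1, 0) : ℝ × ℝ) + b • ((0, 1) : ℝ × ℝ) := by
    ext <;> simp
  rw [e, map_add, map_smul, map_smul]
  rfl

lemma hasDerivAt_c {c : ℝ} (hc : c ∈ Ioo (0:ℝ) 1) (θ : ℝ) :
    HasDerivAt (fun t => Uf U (t, θ)) (D1 U (c, θ)) c := by
  have := h.hasDerivAt_comp (hasDerivAt_id c) (hasDerivAt_const c θ) hc
  simpa using this

lemma hasDerivAt_θ {c : ℝ} (hc : c ∈ Ioo (0:ℝ) 1) (θ : ℝ) :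
    HasDerivAt (fun t => Uf U (c, t)) (D2 U (c, θ)) θ := by
  have := h.hasDerivAt_comp (hasDerivAt_const θ c) (hasDerivAt_id θ) hc
  simpa using this

lemma Uf_per {c : ℝ} (hc : c ∈ Ioo (0:ℝ) 1) (θ : ℝ) : Uf U (c, θ + 2 * π) = Uf U (c, θ) :=
  h.per c hc θ

lemma D1_per {c : ℝ} (hc : c ∈ Ioo (0:ℝ) 1) (θ : ℝ) : D1 U (c, θ + 2 * π) = D1 U (c, θ) := by
  have h1 := h.hasDerivAt_c hc (θ + 2 * π)
  have h2 := h.hasDerivAt_c hc θ
  refine h1.unique (h2.congr_of_eventuallyEq ?_)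
  filter_upwards [isOpen_Ioo.mem_nhds hc] with t ht
  exact h.Uf_per ht θ

lemma D2_per {c : ℝ} (hc : c ∈ Ioo (0:ℝ) 1) (θ : ℝ) : D2 U (c, θ + 2 * π) = D2 U (c, θ) := by
  have h1 := (h.hasDerivAt_θ hc (θ + 2 * π)).comp_add_const θ (2 * π)
  have h2 := h.hasDerivAt_θ hc θ
  refine h1.unique (h2.congr_of_eventuallyEq ?_)
  exact Filter.Eventually.of_forall fun t => h.Uf_per hc t

lemma D1_neg {c : ℝ} (hc : c ∈ Ioo (0:ℝ) 1) (θ : ℝ) : D1 U (c, θ) < 0 := by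
  have h1 := (h.hasDerivAt_c hc θ).deriv
  rw [← h1]
  exact h.mono c hc θ

/-- monotonicity in the parameter -/
lemma strictAnti (θ : ℝ) : StrictAntiOn (fun c => Uf U (c, θ)) (Ioo 0 1) := by
  refine strictAntiOn_of_deriv_neg (convex_Ioo 0 1) ?_ ?_
  · intro c hc
    exact (h.hasDerivAt_c hc θ).continuousAt.continuousWithinAt
  · intro c hc
    rw [interior_Ioo] at hc
    rw [(h.hasDerivAt_c hc θ).deriv]
    exact h.D1_neg hc θ

lemma κ_lt {c : ℝ} (hc : c ∈ Ioo (0:ℝ) 1) (θ : ℝ) : κ θ / 2 < Uf U (c, θ) := by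
  have hm : (c + 1) / 2 ∈ Ioo (0:ℝ) 1 := ⟨by linarith [hc.1], by linarith [hc.2]⟩
  have h1 : Uf U ((c + 1) / 2, θ) < Uf U (c, θ) :=
    h.strictAnti θ hc hm (by linarith [hc.2])
  have h2 : κ θ / 2 ≤ Uf U ((c + 1) / 2, θ) := by
    refine le_of_tendsto (h.lim1 θ) ?_
    filter_upwards [Ioo_mem_nhdsLT hm.2] with t ht
    have ht' : t ∈ Ioo (0:ℝ) 1 := ⟨by linarith [ht.1, hm.1], ht.2⟩
    exact (h.strictAnti θ hm ht' ht.1).le
  linarith

lemma κ_per (θ : ℝ) : κ (θ + 2 * π) = κ θ := by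
  have h1 := h.lim1 (θ + 2 * π)
  have h2 := h.lim1 θ
  have h3 : Tendsto (fun c => U c (θ + 2 * π)) (𝓝[<] 1) (𝓝 (κ θ / 2)) := by
    refine h2.congr' ?_
    filter_upwards [Ioo_mem_nhdsLT (zero_lt_one' ℝ)] with t ht
    exact (h.per t ht θ).symm
  have := tendsto_nhds_unique h1 h3
  linarith

omit h in
lemma hasDerivAt_next {γ : ℝ → ℝ} {u' t : ℝ} {f : ℝ → ℝ} {a : ℝ}
    (hf : HasDerivAt f a t) (hγ : HasDerivAt γ u' t) :
    HasDerivAt (fun s => f s + π - 2 * arctan (γ s)) (a - 2 * u' / (1 + γ t ^ 2)) t := by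
  have h2 := (hf.add_const π).sub (hγ.arctan.const_mul 2)
  refine h2.congr_deriv ?_
  ring

lemma hasDerivAt_nxt_θ {c : ℝ} (hc : c ∈ Ioo (0:ℝ) 1) (θ : ℝ) :
    HasDerivAt (nxt U c) (1 - 2 * D2 U (c, θ) / (1 + Uf U (c, θ) ^ 2)) θ :=
  hasDerivAt_next (hasDerivAt_id θ) (h.hasDerivAt_θ hc θ)

lemma hasDerivAt_nxt_c {c : ℝ} (hc : c ∈ Ioo (0:ℝ) 1) (θ : ℝ) :
    HasDerivAt (fun t => nxt U t θ) (-(2 * D1 U (c, θ) / (1 + Uf U (c, θ) ^ 2))) c := by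
  have h1 := hasDerivAt_next (hasDerivAt_const c θ) (h.hasDerivAt_c hc θ)
  refine h1.congr_deriv ?_
  ring

lemma nxt_per {c : ℝ} (hc : c ∈ Ioo (0:ℝ) 1) (θ : ℝ) :
    nxt U c (θ + 2 * π) = nxt U c θ + 2 * π := by
  unfold nxt
  rw [h.per c hc θ]
  ring

lemma continuous_nxt {c : ℝ} (hc : c ∈ Ioo (0:ℝ) 1) : Continuous (nxt U c) :=
  continuous_iff_continuousAt.2 fun θ => (h.hasDerivAt_nxt_θ hc θ).continuousAt

lemma nxt_surj {c : ℝ} (hc : c ∈ Ioo (0:ℝ) 1) : Function.Surjective (nxt U c) :=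
  surjective_of_shift (by positivity : (0:ℝ) < 2 * π) (h.continuous_nxt hc) (h.nxt_per hc)

lemma feq' {c : ℝ} (hc : c ∈ Ioo (0:ℝ) 1) (θ : ℝ) :
    Uf U (c, nxt U c θ) - κ (nxt U c θ) = Uf U (c, θ) := h.feq c hc θ

/-- `κ` is continuously differentiable. -/
lemma contDiff_κ : ContDiff ℝ 1 κ := by
  rw [contDiff_iff_contDiffAt]
  intro x
  have hc : (1/2:ℝ) ∈ Ioo (0:ℝ) 1 := ⟨by norm_num, by norm_num⟩
  obtain ⟨θ, rfl⟩ := h.nxt_surj hc x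
  set φ : ℝ → ℝ := fun c => nxt U c θ with hφ
  -- `φ` is `C¹` near `1/2`
  have hφs : ContDiffAt ℝ 1 φ (1/2) := by
    have h1 : ContDiffAt ℝ 1 (fun c : ℝ => Uf U (c, θ)) (1/2) :=
      (h.contDiffAt (q := ((1/2:ℝ), θ)) hc).comp (1/2:ℝ) (contDiffAt_id.prodMk contDiffAt_const)
    have h2 : φ = fun c => θ + π - 2 * arctan (Uf U (c, θ)) := rfl
    rw [h2]
    exact contDiffAt_const.sub (contDiffAt_const.mul h1.arctan)
  have hφd := h.hasDerivAt_nxt_c hc θ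
  have hd0 : -(2 * D1 U (1/2, θ) / (1 + Uf U (1/2, θ) ^ 2)) ≠ 0 := by
    have h1 := h.D1_neg hc θ
    have h2 : 0 < 1 + Uf U (1/2, θ) ^ 2 := by positivity
    have h3 : 2 * D1 U (1/2, θ) / (1 + Uf U (1/2, θ) ^ 2) < 0 :=
      div_neg_of_neg_of_pos (by linarith) h2
    exact (by linarith : 0 < -(2 * D1 U (1/2, θ) / (1 + Uf U (1/2, θ) ^ 2))).ne'
  set e : ℝ ≃L[ℝ] ℝ := ContinuousLinearEquiv.unitsEquivAut ℝ (Units.mk0 _ hd0) with he
  have hfd : HasFDerivAt φ (e : ℝ →L[ℝ] ℝ) (1/2) := by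
    rw [hasFDerivAt_iff_hasDerivAt]
    refine hφd.congr_deriv ?_
    simp [he]
  set g := hφs.localInverse hfd one_ne_zero with hg
  have hgs : ContDiffAt ℝ 1 g (φ (1/2)) := hφs.to_localInverse hfd one_ne_zero
  have hga : g (φ (1/2)) = 1/2 := hφs.localInverse_apply_image hfd one_ne_zero
  have hstrict : HasStrictFDerivAt φ (e : ℝ →L[ℝ] ℝ) (1/2) :=
    hφs.hasStrictFDerivAt' hfd one_ne_zero
  have hright : ∀ᶠ y in 𝓝 (φ (1/2)), φ (g y) = y := hstrict.eventually_right_inverse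
  have hmem : ∀ᶠ y in 𝓝 (φ (1/2)), g y ∈ Ioo (0:ℝ) 1 := by
    have h1 : Tendsto g (𝓝 (φ (1/2))) (𝓝 (1/2)) := by
      have := hgs.continuousAt.tendsto
      rwa [hga] at this
    exact h1.eventually (isOpen_Ioo.mem_nhds hc)
  have hform : κ =ᶠ[𝓝 (φ (1/2))] fun y => Uf U (g y, y) - Uf U (g y, θ) := by
    filter_upwards [hright, hmem] with y h1 h2
    have h3 := h.feq' h2 θ
    have h4 : nxt U (g y) θ = y := h1
    rw [h4] at h3
    linarith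
  refine ContDiffAt.congr_of_eventuallyEq ?_ hform
  have k1 : ContDiffAt ℝ 1 (fun y => Uf U (g y, y)) (φ (1/2)) := by
    refine ContDiffAt.comp (g := Uf U) (f := fun y => (g y, y)) (φ (1/2)) ?_
      (hgs.prodMk contDiffAt_id)
    refine h.contDiffAt ?_
    show g (φ (1/2)) ∈ Ioo (0:ℝ) 1
    rw [hga]; exact hc
  have k2 : ContDiffAt ℝ 1 (fun y => Uf U (g y, θ)) (φ (1/2)) := by
    refine ContDiffAt.comp (g := Uf U) (f := fun y => (g y, θ)) (φ (1/2)) ?_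
      (hgs.prodMk contDiffAt_const)
    refine h.contDiffAt ?_
    show g (φ (1/2)) ∈ Ioo (0:ℝ) 1
    rw [hga]; exact hc
  exact k1.sub k2

lemma hasDerivAt_κ (θ : ℝ) : HasDerivAt κ (deriv κ θ) θ :=
  (h.contDiff_κ.differentiable one_ne_zero θ).hasDerivAt

lemma continuous_κ : Continuous κ := h.contDiff_κ.continuous

lemma continuous_dκ : Continuous (deriv κ) := h.contDiff_κ.continuous_deriv le_rfl

lemma dκ_per (θ : ℝ) : deriv κ (θ + 2 * π) = deriv κ θ := by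
  have h1 : HasDerivAt (fun t => κ (t + 2 * π)) (deriv κ (θ + 2 * π)) θ := by
    simpa using (h.hasDerivAt_κ (θ + 2 * π)).comp_add_const θ (2 * π)
  have h2 : HasDerivAt (fun t => κ (t + 2 * π)) (deriv κ θ) θ := by
    have : (fun t => κ (t + 2 * π)) = κ := funext h.κ_per
    rw [this]
    exact h.hasDerivAt_κ θ
  exact h1.unique h2

/-- the `θ`-derivative of the functional equation -/
lemma eq_θ {c : ℝ} (hc : c ∈ Ioo (0:ℝ) 1) (θ : ℝ) :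
    (D2 U (c, nxt U c θ) - deriv κ (nxt U c θ)) *
      (1 - 2 * D2 U (c, θ) / (1 + Uf U (c, θ) ^ 2)) = D2 U (c, θ) := by
  have h1 := h.hasDerivAt_comp (hasDerivAt_const θ c) (h.hasDerivAt_nxt_θ hc θ) hc
  have h2 := (h.hasDerivAt_κ (nxt U c θ)).comp θ (h.hasDerivAt_nxt_θ hc θ)
  have h3 := h1.sub h2
  have h4 := h.hasDerivAt_θ hc θ
  have h5 := h3.unique (h4.congr_of_eventuallyEq
    (Filter.Eventually.of_forall fun t => h.feq' hc t))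
  linarith

/-- the `c`-derivative of the functional equation, giving the invariant density -/
lemma eq_c {c : ℝ} (hc : c ∈ Ioo (0:ℝ) 1) (θ : ℝ) :
    (-D1 U (c, nxt U c θ)) * (1 - 2 * D2 U (c, θ) / (1 + Uf U (c, θ) ^ 2)) = -D1 U (c, θ) := by
  have h1 := h.hasDerivAt_comp (hasDerivAt_id c) (h.hasDerivAt_nxt_c hc θ) hc
  have h2 := (h.hasDerivAt_κ (nxt U c θ)).comp c (h.hasDerivAt_nxt_c hc θ)
  have h3 := h1.sub h2
  have h4 := h.hasDerivAt_c hc θ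
  have h5 : (fun t => Uf U (id t, nxt U t θ)) - (κ ∘ fun t => nxt U t θ) =ᶠ[𝓝 c]
      fun t => Uf U (t, θ) := by
    filter_upwards [isOpen_Ioo.mem_nhds hc] with t ht
    exact h.feq' ht θ
  have h6 := h3.unique (h4.congr_of_eventuallyEq h5)
  have h7 := h.eq_θ hc θ
  simp only [id] at h6
  set A := D1 U (c, nxt U c θ)
  set B := D2 U (c, nxt U c θ)
  set p := D2 U (c, θ)
  set w := D1 U (c, θ)
  set Y := 1 + Uf U (c, θ) ^ 2 with hY
  have hYp : 0 < Y := by positivity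
  have h8 : A = w + (2 * w / Y) * (B - deriv κ (nxt U c θ)) := by linarith
  rw [h8]
  have h9 : -(w + 2 * w / Y * (B - deriv κ (nxt U c θ))) * (1 - 2 * p / Y) =
      -(w * (1 - 2 * p / Y)) - 2 * w / Y * ((B - deriv κ (nxt U c θ)) * (1 - 2 * p / Y)) := by ring
  rw [h9, h7]
  field_simp
  ring

/-- positivity facts for every leaf -/
lemma pos_facts {c : ℝ} (hc : c ∈ Ioo (0:ℝ) 1) :
    (∀ θ, 0 < 1 - 2 * D2 U (c, θ) / (1 + Uf U (c, θ) ^ 2)) ∧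
    (∀ θ, 0 < 1 + Uf U (c, θ) ^ 2 - D2 U (c, θ)) ∧
    (∀ θ, 0 < 1 + (Uf U (c, θ) - κ θ) ^ 2 + D2 U (c, θ) - deriv κ θ) ∧
    (∀ θ, 0 < (1 + (Uf U (c, θ) - κ θ) ^ 2) + (1 + Uf U (c, θ) ^ 2) - 2 * deriv κ θ) :=
  leaf_pos (y := fun θ => Uf U (c, θ)) (p := fun θ => D2 U (c, θ))
    (w := fun θ => -D1 U (c, θ)) (κ := κ) (κ' := deriv κ) (τ := nxt U c)
    (continuous_slice h.continuousOn_Uf hc) (h.hasDerivAt_nxt_θ hc) (h.nxt_per hc)
    (h.feq' hc) (h.eq_c hc) (h.eq_θ hc)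
    (fun θ => by have := h.D1_neg hc θ; linarith)

/-- the mean of `κ` vanishes -/
lemma mean_zero : ∫ θ in (0)..(2 * π), κ θ = 0 := by
  have hc : (1/2:ℝ) ∈ Ioo (0:ℝ) 1 := ⟨by norm_num, by norm_num⟩
  set c : ℝ := 1/2 with hcd
  have hUc : Continuous fun θ => Uf U (c, θ) := continuous_slice h.continuousOn_Uf hc
  have hDc : Continuous fun θ => D2 U (c, θ) := continuous_slice h.continuousOn_D2 hc
  have hκc := h.continuous_κ
  have hY : ∀ θ, (1 + Uf U (c, θ) ^ 2) ≠ 0 := fun θ => by positivity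
  have hTc : Continuous fun θ => 1 - 2 * D2 U (c, θ) / (1 + Uf U (c, θ) ^ 2) :=
    continuous_const.sub ((continuous_const.mul hDc).div₀ (by fun_prop) hY)
  have hτ0 : nxt U c (2 * π) = nxt U c 0 + 2 * π := by simpa using h.nxt_per hc 0
  have ii : ∀ {g : ℝ → ℝ}, Continuous g → IntervalIntegrable g volume 0 (2 * π) :=
    fun hg => hg.intervalIntegrable _ _
  have hGper : ∀ θ, (fun θ => Uf U (c, θ) - κ θ) (θ + 2 * π) = (fun θ => Uf U (c, θ) - κ θ) θ := by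
    intro θ
    simp only [h.Uf_per hc, h.κ_per]
  have hGcont : Continuous (fun θ => Uf U (c, θ) - κ θ) := hUc.sub hκc
  have h1 := integral_comp_tau (h.hasDerivAt_nxt_θ hc) hTc hτ0 hGcont hGper
  have h2 : ∫ θ in (0)..(2 * π), (2 * Uf U (c, θ) * D2 U (c, θ) / (1 + Uf U (c, θ) ^ 2)) = 0 := by
    have hd : ∀ θ ∈ uIcc 0 (2 * π), HasDerivAt (fun t => log (1 + Uf U (c, t) ^ 2))
        (2 * Uf U (c, θ) * D2 U (c, θ) / (1 + Uf U (c, θ) ^ 2)) θ := by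
      intro θ _
      have hU := h.hasDerivAt_θ hc θ
      have h5 := ((hU.pow 2).const_add 1).log (hY θ)
      refine h5.congr_deriv ?_
      simp only [Nat.cast_ofNat, Nat.add_one_sub_one, pow_one, Pi.pow_apply]
    have hcont : Continuous fun θ =>
        2 * Uf U (c, θ) * D2 U (c, θ) / (1 + Uf U (c, θ) ^ 2) :=
      ((continuous_const.mul hUc).mul hDc).div₀ (by fun_prop) hY
    rw [intervalIntegral.integral_eq_sub_of_hasDerivAt hd (ii hcont)]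
    have h6 : Uf U (c, 2 * π) = Uf U (c, 0) := by simpa using h.Uf_per hc 0
    rw [h6, sub_self]
  have hcont : Continuous fun θ =>
        2 * Uf U (c, θ) * D2 U (c, θ) / (1 + Uf U (c, θ) ^ 2) :=
      ((continuous_const.mul hUc).mul hDc).div₀ (by fun_prop) hY
  have h3 : ∫ θ in (0)..(2 * π), (Uf U (c, nxt U c θ) - κ (nxt U c θ)) *
      (1 - 2 * D2 U (c, θ) / (1 + Uf U (c, θ) ^ 2)) =
      (∫ θ in (0)..(2 * π), Uf U (c, θ)) -
      ∫ θ in (0)..(2 * π), (2 * Uf U (c, θ) * D2 U (c, θ) / (1 + Uf U (c, θ) ^ 2)) := by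
    rw [← intervalIntegral.integral_sub (ii hUc) (ii hcont)]
    refine intervalIntegral.integral_congr fun θ _ => ?_
    rw [h.feq' hc]
    ring
  have h4 : ∫ θ in (0)..(2 * π), (Uf U (c, θ) - κ θ) =
      (∫ θ in (0)..(2 * π), Uf U (c, θ)) - ∫ θ in (0)..(2 * π), κ θ :=
    intervalIntegral.integral_sub (ii hUc) (ii hκc)
  rw [h3, h2, sub_zero, h4] at h1
  linarith

/-- the square of `k` is positive -/
lemma k2_pos (θ : ℝ) : 0 < 1 + κ θ ^ 2 / 4 - deriv κ θ / 2 := by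
  have h1 : 0 ≤ (1 + (κ θ / 2 - κ θ) ^ 2) + (1 + (κ θ / 2) ^ 2) - 2 * deriv κ θ := by
    have hl := h.lim1 θ
    have h2 : Tendsto (fun c => (1 + (U c θ - κ θ) ^ 2) + (1 + (U c θ) ^ 2) - 2 * deriv κ θ)
        (𝓝[<] 1) (𝓝 ((1 + (κ θ / 2 - κ θ) ^ 2) + (1 + (κ θ / 2) ^ 2) - 2 * deriv κ θ)) :=
      (((hl.sub_const _).pow 2).const_add 1).add ((hl.pow 2).const_add 1) |>.sub_const _
    refine ge_of_tendsto h2 ?_
    filter_upwards [Ioo_mem_nhdsLT (zero_lt_one' ℝ)] with t ht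
    exact ((h.pos_facts ht).2.2.2 θ).le
  nlinarith [sq_nonneg (κ θ)]

end Fam

end Pool.Agent.MP_ae5b4e_an_total
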