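import Mathlib
import Pool.Agent.Lib.MP_ae5b4e_an_total.Family

/-!
Integration of the Hopf identity over all the leaves, and the conclusion in the centred case.
-/

noncomputable section

namespace Pool.Agent.MP_ae5b4e_an_total

open Real Set Filter Topology MeasureTheory intervalIntegral

variable {U : ℝ → ℝ → ℝ} {κ : ℝ → ℝ}

/-- the square root of the discriminant -/
def kk (κ : ℝ → ℝ) (θ : ℝ) : ℝ := √(1 + κ θ ^ 2 / 4 - deriv κ θ / 2)

/-- the integrand -/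
def GG (κ : ℝ → ℝ) (θ u : ℝ) : ℝ :=
  (u - κ θ) ^ 2 / (1 + (u - κ θ) ^ 2) + u ^ 2 / (1 + u ^ 2) -
    (u - κ θ + u) ^ 2 / (1 + (u - κ θ) ^ 2 + (1 + u ^ 2) - deriv κ θ)

/-- its primitive -/
def Φ (κ : ℝ → ℝ) (θ u : ℝ) : ℝ :=
  2 * kk κ θ * arctan ((u - κ θ / 2) / kk κ θ) - arctan (u - κ θ) - arctan u

/-- the defect -/
def dfct (U : ℝ → ℝ → ℝ) (κ : ℝ → ℝ) (c θ : ℝ) : ℝ :=
  (Uf U (c, θ) * (1 + (Uf U (c, θ) - κ θ) ^ 2 + D2 U (c, θ) - deriv κ θ) -
    (Uf U (c, θ) - κ θ) * (1 + Uf U (c, θ) ^ 2 - D2 U (c, θ))) ^ 2 /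
    ((1 + Uf U (c, θ) ^ 2 - D2 U (c, θ)) *
      (1 + (Uf U (c, θ) - κ θ) ^ 2 + D2 U (c, θ) - deriv κ θ) *
      (1 + (Uf U (c, θ) - κ θ) ^ 2 + (1 + Uf U (c, θ) ^ 2) - deriv κ θ)) * (-D1 U (c, θ))

namespace Fam

variable (h : Fam U κ)
include h

lemma kk_pos (θ : ℝ) : 0 < kk κ θ := sqrt_pos.2 (h.k2_pos θ)

lemma continuous_kk : Continuous (kk κ) := by
  have h1 := h.continuous_κ
  have h2 := h.continuous_dκ
  unfold kk
  fun_prop

lemma hasDerivAt_Φ (θ u : ℝ) : HasDerivAt (Φ κ θ) (GG κ θ u) u := by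
  have hk := h.kk_pos θ
  have hk2 : kk κ θ ^ 2 = 1 + κ θ ^ 2 / 4 - deriv κ θ / 2 := sq_sqrt (h.k2_pos θ).le
  set k := kk κ θ with hkdef
  have h1 : HasDerivAt (fun u => (u - κ θ / 2) / k) (1 / k) u := by
    simpa using ((hasDerivAt_id u).sub_const (κ θ / 2)).div_const k
  have h2 : HasDerivAt (fun u => u - κ θ) 1 u := (hasDerivAt_id u).sub_const _
  have h3 := ((h1.arctan.const_mul (2 * k)).sub h2.arctan).sub (hasDerivAt_id u).arctan
  have e : Φ κ θ = fun u => 2 * k * arctan ((u - κ θ / 2) / k) - arctan (u - κ θ) -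
      arctan (id u) := rfl
  rw [e]
  refine HasDerivAt.congr_deriv h3 ?_
  have hN : 1 + (u - κ θ) ^ 2 + (1 + u ^ 2) - deriv κ θ =
      2 * ((u - κ θ / 2) ^ 2 + k ^ 2) := by rw [hk2]; ring
  unfold GG
  rw [hN]
  have p1 : 0 < 1 + (u - κ θ) ^ 2 := by positivity
  have p2 : 0 < 1 + u ^ 2 := by positivity
  have p3 : 0 < (u - κ θ / 2) ^ 2 + k ^ 2 := by positivity
  have p4 : 0 < 1 + ((u - κ θ / 2) / k) ^ 2 := by positivity
  have e1 : 2 * k * (1 / (1 + ((u - κ θ / 2) / k) ^ 2) * (1 / k)) =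
      2 * k ^ 2 / ((u - κ θ / 2) ^ 2 + k ^ 2) := by
    field_simp
    ring
  simp only [id]
  rw [e1]
  have e2 : (u - κ θ) ^ 2 / (1 + (u - κ θ) ^ 2) = 1 - 1 / (1 + (u - κ θ) ^ 2) := by
    field_simp; ring
  have e3 : u ^ 2 / (1 + u ^ 2) = 1 - 1 / (1 + u ^ 2) := by
    field_simp; ring
  have e4 : (u - κ θ + u) ^ 2 / (2 * ((u - κ θ / 2) ^ 2 + k ^ 2)) =
      2 - 2 * k ^ 2 / ((u - κ θ / 2) ^ 2 + k ^ 2) := by
    field_simp; ring
  rw [e2, e3, e4]
  ring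

lemma N_pos {c : ℝ} (hc : c ∈ Ioo (0:ℝ) 1) (θ : ℝ) :
    0 < 1 + (Uf U (c, θ) - κ θ) ^ 2 + (1 + Uf U (c, θ) ^ 2) - deriv κ θ := by
  obtain ⟨-, ha, hb, -⟩ := h.pos_facts hc
  have := ha θ
  have := hb θ
  linarith

lemma continuousOn_integrand :
    ContinuousOn (fun q : ℝ × ℝ => GG κ q.2 (Uf U q) * (-D1 U q)) (Ioo 0 1 ×ˢ univ) := by
  have hU := h.continuousOn_Uf
  have hκ : ContinuousOn (fun q : ℝ × ℝ => κ q.2) (Ioo 0 1 ×ˢ univ) :=
    (h.continuous_κ.comp continuous_snd).continuousOn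
  have hκ' : ContinuousOn (fun q : ℝ × ℝ => deriv κ q.2) (Ioo 0 1 ×ˢ univ) :=
    (h.continuous_dκ.comp continuous_snd).continuousOn
  unfold GG
  refine ContinuousOn.mul ?_ h.continuousOn_D1.neg
  refine (((((hU.sub hκ).pow 2).div (continuousOn_const.add ((hU.sub hκ).pow 2)) ?_)).add
    ((hU.pow 2).div (continuousOn_const.add (hU.pow 2)) ?_)).sub
    ((((hU.sub hκ).add hU).pow 2).div (((continuousOn_const.add ((hU.sub hκ).pow 2)).add
      (continuousOn_const.add (hU.pow 2))).sub hκ') ?_)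
  · intro q _
    have : (0:ℝ) < 1 + (Uf U q - κ q.2) ^ 2 := by positivity
    exact this.ne'
  · intro q _
    have : (0:ℝ) < 1 + Uf U q ^ 2 := by positivity
    exact this.ne'
  · intro q hq
    exact (h.N_pos hq.1 q.2).ne'

lemma dfct_nonneg {c : ℝ} (hc : c ∈ Ioo (0:ℝ) 1) (θ : ℝ) : 0 ≤ dfct U κ c θ := by
  obtain ⟨-, ha, hb, -⟩ := h.pos_facts hc
  have h1 := ha θ
  have h2 := hb θ
  have h3 := h.N_pos hc θ
  have h4 := h.D1_neg hc θ
  unfold dfct
  have : 0 < -D1 U (c, θ) := by linarith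
  positivity

lemma continuous_dfct {c : ℝ} (hc : c ∈ Ioo (0:ℝ) 1) : Continuous (dfct U κ c) := by
  have hU : Continuous fun θ => Uf U (c, θ) := continuous_slice h.continuousOn_Uf hc
  have hD1 : Continuous fun θ => D1 U (c, θ) := continuous_slice h.continuousOn_D1 hc
  have hD2 : Continuous fun θ => D2 U (c, θ) := continuous_slice h.continuousOn_D2 hc
  have hκ := h.continuous_κ
  have hκ' := h.continuous_dκ
  obtain ⟨-, ha, hb, -⟩ := h.pos_facts hc
  unfold dfct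
  refine Continuous.mul (Continuous.div₀ (by fun_prop) (by fun_prop) fun θ => ?_) hD1.neg
  exact (mul_pos (mul_pos (ha θ) (hb θ)) (h.N_pos hc θ)).ne'

lemma leaf_integral {c : ℝ} (hc : c ∈ Ioo (0:ℝ) 1) :
    ∫ θ in (0)..(2 * π), GG κ θ (Uf U (c, θ)) * (-D1 U (c, θ)) =
      ∫ θ in (0)..(2 * π), dfct U κ c θ :=
  leaf_identity (y := fun θ => Uf U (c, θ)) (p := fun θ => D2 U (c, θ))
    (w := fun θ => -D1 U (c, θ)) (κ := κ) (κ' := deriv κ) (τ := nxt U c)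
    (continuous_slice h.continuousOn_Uf hc) (continuous_slice h.continuousOn_D2 hc)
    (continuous_slice h.continuousOn_D1 hc).neg h.continuous_κ h.continuous_dκ
    (h.Uf_per hc) (h.D2_per hc) (fun θ => by rw [h.D1_per hc]) h.κ_per h.dκ_per
    (h.hasDerivAt_nxt_θ hc) (h.nxt_per hc)
    (h.feq' hc) (h.eq_c hc) (h.eq_θ hc)
    (fun θ => by have := h.D1_neg hc θ; linarith)

/-- the integral over one leaf -/
lemma leaf_integral_nonneg {c : ℝ} (hc : c ∈ Ioo (0:ℝ) 1) :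
    0 ≤ ∫ θ in (0)..(2 * π), GG κ θ (Uf U (c, θ)) * (-D1 U (c, θ)) := by
  rw [h.leaf_integral hc]
  exact intervalIntegral.integral_nonneg (by positivity) fun θ _ => h.dfct_nonneg hc θ

lemma continuous_Φ {c : ℝ} (hc : c ∈ Ioo (0:ℝ) 1) : Continuous fun θ => Φ κ θ (Uf U (c, θ)) := by
  have hkc := h.continuous_kk
  have hκc := h.continuous_κ
  have hkn : ∀ θ, kk κ θ ≠ 0 := fun θ => (h.kk_pos θ).ne'
  have hU : Continuous fun θ => Uf U (c, θ) := continuous_slice h.continuousOn_Uf hc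
  unfold Φ
  have : Continuous fun θ => (Uf U (c, θ) - κ θ / 2) / kk κ θ :=
    Continuous.div₀ (by fun_prop) hkc hkn
  fun_prop

/-- Fubini and the fundamental theorem of calculus. -/
lemma double_integral {c₁ c₂ : ℝ} (h1 : 0 < c₁) (h12 : c₁ ≤ c₂) (h2 : c₂ < 1) :
    ∫ c in c₁..c₂, (∫ θ in (0)..(2 * π), GG κ θ (Uf U (c, θ)) * (-D1 U (c, θ))) =
      (∫ θ in (0)..(2 * π), Φ κ θ (Uf U (c₁, θ))) - ∫ θ in (0)..(2 * π), Φ κ θ (Uf U (c₂, θ)) := by
  have hpi : (0:ℝ) ≤ 2 * π := by positivity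
  have hsub : Icc c₁ c₂ ×ˢ Icc 0 (2 * π) ⊆ Ioo (0:ℝ) 1 ×ˢ univ := by
    intro q hq
    exact ⟨⟨by linarith [hq.1.1], by linarith [hq.1.2]⟩, mem_univ _⟩
  have hint : IntegrableOn (Function.uncurry fun c θ =>
      GG κ θ (Uf U (c, θ)) * (-D1 U (c, θ))) (uIoc c₁ c₂ ×ˢ uIoc 0 (2 * π)) := by
    have h3 : IntegrableOn (Function.uncurry fun c θ =>
      GG κ θ (Uf U (c, θ)) * (-D1 U (c, θ))) (Icc c₁ c₂ ×ˢ Icc 0 (2 * π)) := by
      refine ContinuousOn.integrableOn_compact (isCompact_Icc.prod isCompact_Icc) ?_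
      exact h.continuousOn_integrand.mono hsub
    refine h3.mono_set ?_
    rw [uIoc_of_le h12, uIoc_of_le hpi]
    exact prod_mono Ioc_subset_Icc_self Ioc_subset_Icc_self
  rw [MeasureTheory.intervalIntegral_intervalIntegral_swap hint]
  have hc1 : c₁ ∈ Ioo (0:ℝ) 1 := ⟨h1, h12.trans_lt h2⟩
  have hc2 : c₂ ∈ Ioo (0:ℝ) 1 := ⟨h1.trans_le h12, h2⟩
  rw [← intervalIntegral.integral_sub ((h.continuous_Φ hc1).intervalIntegrable _ _)
    ((h.continuous_Φ hc2).intervalIntegrable _ _)]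
  refine intervalIntegral.integral_congr fun θ _ => ?_
  have hd : ∀ c ∈ uIcc c₁ c₂, HasDerivAt (fun c => -Φ κ θ (Uf U (c, θ)))
      (GG κ θ (Uf U (c, θ)) * (-D1 U (c, θ))) c := by
    intro c hc
    rw [uIcc_of_le h12] at hc
    have hc' : c ∈ Ioo (0:ℝ) 1 := ⟨by linarith [hc.1], by linarith [hc.2]⟩
    have h3 := ((h.hasDerivAt_Φ θ (Uf U (c, θ))).comp c (h.hasDerivAt_c hc' θ)).neg
    refine h3.congr_deriv ?_
    ring
  have hcont : ContinuousOn (fun c => GG κ θ (Uf U (c, θ)) * (-D1 U (c, θ)))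
      (uIcc c₁ c₂) := by
    rw [uIcc_of_le h12]
    refine h.continuousOn_integrand.comp (f := fun c : ℝ => (c, θ)) (by fun_prop) ?_
    intro c hc
    exact ⟨⟨by linarith [hc.1], by linarith [hc.2]⟩, mem_univ _⟩
  rw [intervalIntegral.integral_eq_sub_of_hasDerivAt hd hcont.intervalIntegrable]
  ring

/-- the integral over one leaf is continuous in the leaf -/
lemma exists_continuous_extension {c₁ c₂ : ℝ} (h1 : 0 < c₁) (h12 : c₁ ≤ c₂) (h2 : c₂ < 1) :
    ∃ D : ℝ → ℝ, Continuous D ∧ ∀ c ∈ Icc c₁ c₂,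
      D c = ∫ θ in (0)..(2 * π), GG κ θ (Uf U (c, θ)) * (-D1 U (c, θ)) := by
  set pr : ℝ → ℝ := fun c => max c₁ (min c c₂) with hpr
  have hprc : Continuous pr := by simp only [hpr]; fun_prop
  have hprm : ∀ c, pr c ∈ Ioo (0:ℝ) 1 := by
    intro c
    simp only [hpr]
    constructor
    · exact lt_max_of_lt_left h1
    · exact max_lt (by linarith) ((min_le_right _ _).trans_lt h2)
  refine ⟨fun c => ∫ θ in (0)..(2 * π), GG κ θ (Uf U (pr c, θ)) * (-D1 U (pr c, θ)), ?_, ?_⟩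
  · refine intervalIntegral.continuous_parametric_intervalIntegral_of_continuous' ?_ 0 (2 * π)
    have h2 : Function.uncurry (fun c θ => GG κ θ (Uf U (pr c, θ)) * (-D1 U (pr c, θ))) =
        (fun q : ℝ × ℝ => GG κ q.2 (Uf U q) * (-D1 U q)) ∘
          (fun q : ℝ × ℝ => (pr q.1, q.2)) := rfl
    rw [h2]
    refine h.continuousOn_integrand.comp_continuous ?_ ?_
    · exact (hprc.comp continuous_fst).prodMk continuous_snd
    · intro q
      exact ⟨hprm _, mem_univ _⟩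
  · intro c hc
    have : pr c = c := by
      simp only [hpr]
      rw [min_eq_left hc.2, max_eq_right hc.1]
    simp only [this]

lemma Φ_bound (θ u : ℝ) : |Φ κ θ u| ≤ kk κ θ * π + π := by
  unfold Φ
  have hk := h.kk_pos θ
  have b1 : |arctan ((u - κ θ / 2) / kk κ θ)| ≤ π / 2 :=
    abs_le.2 ⟨by linarith [neg_pi_div_two_lt_arctan ((u - κ θ / 2) / kk κ θ)],
      (arctan_lt_pi_div_two _).le⟩
  have b2 : |arctan (u - κ θ)| ≤ π / 2 :=
    abs_le.2 ⟨by linarith [neg_pi_div_two_lt_arctan (u - κ θ)], (arctan_lt_pi_div_two _).le⟩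
  have b3 : |arctan u| ≤ π / 2 :=
    abs_le.2 ⟨by linarith [neg_pi_div_two_lt_arctan u], (arctan_lt_pi_div_two _).le⟩
  have b4 : |2 * kk κ θ * arctan ((u - κ θ / 2) / kk κ θ)| ≤ kk κ θ * π := by
    rw [abs_mul, abs_of_pos (by positivity : 0 < 2 * kk κ θ)]
    nlinarith
  have t1 := abs_sub (2 * kk κ θ * arctan ((u - κ θ / 2) / kk κ θ) - arctan (u - κ θ))
    (arctan u)
  have t2 := abs_sub (2 * kk κ θ * arctan ((u - κ θ / 2) / kk κ θ)) (arctan (u - κ θ))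
  linarith

/-- limit at the curve `γ` -/
lemma tendsto_Φ_zero :
    Tendsto (fun c => ∫ θ in (0)..(2 * π), Φ κ θ (Uf U (c, θ)))
      (𝓝[>] 0) (𝓝 (∫ θ in (0)..(2 * π), (kk κ θ * π - π))) := by
  have hkc := h.continuous_kk
  have hκc := h.continuous_κ
  have hev : ∀ᶠ c in 𝓝[>] (0:ℝ), c ∈ Ioo (0:ℝ) 1 := Ioo_mem_nhdsGT one_pos
  refine intervalIntegral.tendsto_integral_filter_of_dominated_convergence
    (fun θ => (kk κ θ * π + π)) ?_ ?_ ?_ ?_
  · filter_upwards [hev] with c hc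
    exact (h.continuous_Φ hc).aestronglyMeasurable
  · refine Filter.Eventually.of_forall fun c => Filter.Eventually.of_forall fun θ _ => ?_
    rw [Real.norm_eq_abs]
    exact h.Φ_bound θ _
  · exact (by fun_prop : Continuous fun θ => (kk κ θ * π + π)).intervalIntegrable _ _
  · refine Filter.Eventually.of_forall fun θ _ => ?_
    have hU : Tendsto (fun c => Uf U (c, θ)) (𝓝[>] 0) atTop := h.lim0 θ
    have a1 : Tendsto (fun c => arctan (Uf U (c, θ))) (𝓝[>] 0) (𝓝 (π / 2)) :=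
      (tendsto_arctan_atTop.mono_right nhdsWithin_le_nhds).comp hU
    have a2 : Tendsto (fun c => arctan (Uf U (c, θ) - κ θ)) (𝓝[>] 0) (𝓝 (π / 2)) := by
      refine (tendsto_arctan_atTop.mono_right nhdsWithin_le_nhds).comp ?_
      exact tendsto_atTop_add_const_right _ (-κ θ) hU
    have a3 : Tendsto (fun c => arctan ((Uf U (c, θ) - κ θ / 2) / kk κ θ)) (𝓝[>] 0)
        (𝓝 (π / 2)) := by
      refine (tendsto_arctan_atTop.mono_right nhdsWithin_le_nhds).comp ?_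
      refine Tendsto.atTop_div_const (h.kk_pos θ) ?_
      exact tendsto_atTop_add_const_right _ (-(κ θ / 2)) hU
    have a4 := ((a3.const_mul (2 * kk κ θ)).sub a2).sub a1
    have e : 2 * kk κ θ * (π / 2) - π / 2 - π / 2 = kk κ θ * π - π := by ring
    rw [e] at a4
    exact a4

/-- limit at the inner end -/
lemma tendsto_Φ_one :
    Tendsto (fun c => ∫ θ in (0)..(2 * π), Φ κ θ (Uf U (c, θ)))
      (𝓝[<] 1) (𝓝 0) := by
  have hkc := h.continuous_kk
  have hκc := h.continuous_κ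
  have hev : ∀ᶠ c in 𝓝[<] (1:ℝ), c ∈ Ioo (0:ℝ) 1 := Ioo_mem_nhdsLT one_pos
  have h0 : (∫ θ in (0)..(2 * π), (0:ℝ)) = 0 := by simp
  suffices hs : Tendsto (fun c => ∫ θ in (0)..(2 * π), Φ κ θ (Uf U (c, θ)))
      (𝓝[<] 1) (𝓝 (∫ θ in (0)..(2 * π), (0:ℝ))) by rwa [h0] at hs
  refine intervalIntegral.tendsto_integral_filter_of_dominated_convergence
    (fun θ => (kk κ θ * π + π)) ?_ ?_ ?_ ?_
  · filter_upwards [hev] with c hc
    exact (h.continuous_Φ hc).aestronglyMeasurable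
  · refine Filter.Eventually.of_forall fun c => Filter.Eventually.of_forall fun θ _ => ?_
    rw [Real.norm_eq_abs]
    exact h.Φ_bound θ _
  · exact (by fun_prop : Continuous fun θ => (kk κ θ * π + π)).intervalIntegrable _ _
  · refine Filter.Eventually.of_forall fun θ _ => ?_
    have hU : Tendsto (fun c => Uf U (c, θ)) (𝓝[<] 1) (𝓝 (κ θ / 2)) := h.lim1 θ
    have hk : kk κ θ ≠ 0 := (h.kk_pos θ).ne'
    have hc : Continuous (Φ κ θ) :=
      continuous_iff_continuousAt.2 fun u => (h.hasDerivAt_Φ θ u).continuousAt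
    have h1 := (hc.tendsto (κ θ / 2)).comp hU
    have e : Φ κ θ (κ θ / 2) = 0 := by
      unfold Φ
      have e1 : (κ θ / 2 - κ θ / 2) / kk κ θ = 0 := by simp
      have e2 : κ θ / 2 - κ θ = -(κ θ / 2) := by ring
      rw [e1, e2, arctan_neg, arctan_zero]
      ring
    rw [e] at h1
    exact h1

/-- The main analytic conclusion: the Hopf defect vanishes on all leaves. -/
theorem rigidity (hk : ∫ θ in (0)..(2 * π), kk κ θ ≤ 2 * π) :
    ∀ c ∈ Ioo (0:ℝ) 1, ∫ θ in (0)..(2 * π), GG κ θ (Uf U (c, θ)) * (-D1 U (c, θ)) = 0 := by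
  set P : ℝ → ℝ := fun c => ∫ θ in (0)..(2 * π), Φ κ θ (Uf U (c, θ)) with hP
  set L : ℝ := ∫ θ in (0)..(2 * π), (kk κ θ * π - π) with hL
  have hP0 : Tendsto P (𝓝[>] 0) (𝓝 L) := h.tendsto_Φ_zero
  have hP1 : Tendsto P (𝓝[<] 1) (𝓝 0) := h.tendsto_Φ_one
  have hmono : ∀ c₁ c₂, 0 < c₁ → c₁ ≤ c₂ → c₂ < 1 → P c₂ ≤ P c₁ := by
    intro c₁ c₂ h1 h12 h2
    obtain ⟨D, hD, hDe⟩ := h.exists_continuous_extension h1 h12 h2
    have e0 := h.double_integral h1 h12 h2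
    have e1 : ∫ t in c₁..c₂, (∫ θ in (0)..(2 * π), GG κ θ (Uf U (t, θ)) * (-D1 U (t, θ))) =
        ∫ t in c₁..c₂, D t := by
      refine intervalIntegral.integral_congr fun t ht => ?_
      rw [uIcc_of_le h12] at ht
      exact (hDe t ht).symm
    have : 0 ≤ ∫ t in c₁..c₂, D t := by
      refine intervalIntegral.integral_nonneg h12 fun t ht => ?_
      rw [hDe t ht]
      exact h.leaf_integral_nonneg ⟨by linarith [ht.1], by linarith [ht.2]⟩
    rw [← e1, e0] at this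
    simp only [hP]
    linarith
  have hnn : ∀ c ∈ Ioo (0:ℝ) 1, 0 ≤ P c := by
    intro c hc
    refine le_of_tendsto hP1 ?_
    filter_upwards [Ioo_mem_nhdsLT hc.2] with t ht
    exact hmono c t hc.1 ht.1.le ht.2
  have hle : ∀ c ∈ Ioo (0:ℝ) 1, P c ≤ L := by
    intro c hc
    refine ge_of_tendsto hP0 ?_
    filter_upwards [Ioo_mem_nhdsGT hc.1] with t ht
    exact hmono t c ht.1 ht.2.le hc.2
  have hLval : L = π * ((∫ θ in (0)..(2 * π), kk κ θ) - 2 * π) := by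
    have hkc := h.continuous_kk
    have hk2 : Continuous fun θ => kk κ θ * π := by fun_prop
    rw [hL, intervalIntegral.integral_sub (hk2.intervalIntegrable _ _)
      (continuous_const.intervalIntegrable _ _), intervalIntegral.integral_mul_const]
    simp
    ring
  have hL0 : L ≤ 0 := by
    rw [hLval]
    exact mul_nonpos_of_nonneg_of_nonpos pi_pos.le (by linarith)
  have hPz : ∀ c ∈ Ioo (0:ℝ) 1, P c = 0 := fun c hc =>
    le_antisymm ((hle c hc).trans hL0) (hnn c hc)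
  intro c hc
  -- integrate from `c/2` to `c`
  have hc1 : 0 < c / 2 := by linarith [hc.1]
  have hc2 : c / 2 ≤ c := by linarith [hc.1]
  obtain ⟨D, hD, hDe⟩ := h.exists_continuous_extension hc1 hc2 hc.2
  have e1 : ∫ t in (c / 2)..c, D t = 0 := by
    have e0 := h.double_integral hc1 hc2 hc.2
    have e3 := hPz (c / 2) ⟨hc1, by linarith [hc.2, hc.1]⟩
    have e4 := hPz c hc
    simp only [hP] at e3 e4
    rw [e3, e4, sub_zero] at e0
    rw [← e0]
    refine intervalIntegral.integral_congr fun t ht => ?_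
    rw [uIcc_of_le hc2] at ht
    exact hDe t ht
  by_contra hne
  have hpos : 0 < D c := by
    rw [hDe c ⟨hc2, le_rfl⟩]
    exact lt_of_le_of_ne (h.leaf_integral_nonneg hc) (Ne.symm hne)
  have : 0 < ∫ t in (c / 2)..c, D t := by
    refine intervalIntegral.integral_pos (by linarith [hc.1]) hD.continuousOn ?_ ?_
    · intro t ht
      rw [hDe t ⟨ht.1.le, ht.2⟩]
      exact h.leaf_integral_nonneg ⟨by linarith [ht.1], by linarith [ht.2, hc.2]⟩
    · exact ⟨c, ⟨hc2, le_rfl⟩, hpos⟩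
  rw [e1] at this
  exact lt_irrefl _ this

/-- the slope of the leaves is determined -/
lemma slope (hk : ∫ θ in (0)..(2 * π), kk κ θ ≤ 2 * π) {c : ℝ} (hc : c ∈ Ioo (0:ℝ) 1)
    (θ : ℝ) : Uf U (c, θ) * (1 + (Uf U (c, θ) - κ θ) ^ 2 + D2 U (c, θ) - deriv κ θ) =
      (Uf U (c, θ) - κ θ) * (1 + Uf U (c, θ) ^ 2 - D2 U (c, θ)) := by
  have h1 := h.rigidity hk c hc
  have hpi : (0:ℝ) < 2 * π := by positivity
  rw [h.leaf_integral hc] at h1
  have hz : ∀ t ∈ Icc 0 (2 * π), dfct U κ c t = 0 := by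
    intro t ht
    by_contra hne
    have hpos : 0 < dfct U κ c t :=
      lt_of_le_of_ne (h.dfct_nonneg hc t) (Ne.symm hne)
    have : 0 < ∫ θ in (0)..(2 * π), dfct U κ c θ :=
      intervalIntegral.integral_pos hpi (h.continuous_dfct hc).continuousOn
        (fun t _ => h.dfct_nonneg hc t) ⟨t, ht, hpos⟩
    rw [h1] at this
    exact lt_irrefl _ this
  have hper : Function.Periodic (dfct U κ c) (2 * π) := by
    intro t
    unfold dfct
    rw [h.Uf_per hc, h.D1_per hc, h.D2_per hc, h.κ_per, h.dκ_per]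
  obtain ⟨t, ht, hte⟩ := hper.exists_mem_Ico₀ hpi θ
  have h2 : dfct U κ c θ = 0 := by
    rw [hte]
    exact hz t ⟨ht.1, ht.2.le⟩
  obtain ⟨-, ha, hb, -⟩ := h.pos_facts hc
  unfold dfct at h2
  have h3 := h.D1_neg hc θ
  have h4 : -D1 U (c, θ) ≠ 0 := by
    have : 0 < -D1 U (c, θ) := by linarith
    exact this.ne'
  have h5 := (mul_pos (mul_pos (ha θ) (hb θ)) (h.N_pos hc θ)).ne'
  rcases mul_eq_zero.1 h2 with h6 | h6
  · rcases div_eq_zero_iff.1 h6 with h7 | h7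
    · have h8 := pow_eq_zero_iff (two_ne_zero) |>.1 h7
      linarith
    · exact absurd h7 h5
  · exact absurd h6 h4

/-- `κ` has no negative value -/
lemma κ_nonneg (hk : ∫ θ in (0)..(2 * π), kk κ θ ≤ 2 * π) (θ : ℝ) : 0 ≤ κ θ := by
  by_contra hneg
  push Not at hneg
  -- some leaf has `U = 0` at `θ`
  have h1 : ∃ a ∈ Ioo (0:ℝ) 1, 0 < Uf U (a, θ) := by
    have e1 : ∀ᶠ c in 𝓝[>] (0:ℝ), 0 < U c θ := (h.lim0 θ).eventually_gt_atTop 0
    have e2 : ∀ᶠ c in 𝓝[>] (0:ℝ), c ∈ Ioo (0:ℝ) 1 := Ioo_mem_nhdsGT one_pos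
    obtain ⟨a, ha1, ha2⟩ := (e1.and e2).exists
    exact ⟨a, ha2, ha1⟩
  have h2 : ∃ b ∈ Ioo (0:ℝ) 1, Uf U (b, θ) < 0 := by
    have e1 : ∀ᶠ c in 𝓝[<] (1:ℝ), U c θ < 0 :=
      (h.lim1 θ).eventually_lt_const (by linarith)
    have e2 : ∀ᶠ c in 𝓝[<] (1:ℝ), c ∈ Ioo (0:ℝ) 1 := Ioo_mem_nhdsLT one_pos
    obtain ⟨a, ha1, ha2⟩ := (e1.and e2).exists
    exact ⟨a, ha2, ha1⟩
  obtain ⟨a, ha, ha'⟩ := h1
  obtain ⟨b, hb, hb'⟩ := h2
  have hcont : ContinuousOn (fun c => Uf U (c, θ)) (Ioo 0 1) := fun c hc =>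
    (h.hasDerivAt_c hc θ).continuousAt.continuousWithinAt
  have h3 : (0:ℝ) ∈ (fun c => Uf U (c, θ)) '' Ioo 0 1 := by
    have := isPreconnected_Ioo.intermediate_value hb ha hcont
    exact this ⟨hb'.le, ha'.le⟩
  obtain ⟨c, hc, hc0⟩ := h3
  simp only at hc0
  have h4 := h.slope hk hc θ
  rw [hc0] at h4
  obtain ⟨-, hpa, -, -⟩ := h.pos_facts hc
  have h5 := hpa θ
  rw [hc0] at h5
  have h6 : κ θ * (1 + 0 ^ 2 - D2 U (c, θ)) = 0 := by linarith
  rcases mul_eq_zero.1 h6 with h7 | h7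
  · exact hneg.ne h7
  · exact h5.ne' h7

/-- `κ` vanishes -/
lemma κ_zero (hk : ∫ θ in (0)..(2 * π), kk κ θ ≤ 2 * π) (θ : ℝ) : κ θ = 0 := by
  have hpi : (0:ℝ) < 2 * π := by positivity
  have h0 := h.mean_zero
  have hz : ∀ t ∈ Icc 0 (2 * π), κ t = 0 := by
    intro t ht
    by_contra hne
    have hpos : 0 < κ t := lt_of_le_of_ne (h.κ_nonneg hk t) (Ne.symm hne)
    have : 0 < ∫ θ in (0)..(2 * π), κ θ :=
      intervalIntegral.integral_pos hpi h.continuous_κ.continuousOn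
        (fun t _ => h.κ_nonneg hk t) ⟨t, ht, hpos⟩
    rw [h0] at this
    exact lt_irrefl _ this
  have hper : Function.Periodic κ (2 * π) := h.κ_per
  obtain ⟨t, ht, hte⟩ := hper.exists_mem_Ico₀ hpi θ
  rw [hte]
  exact hz t ⟨ht.1, ht.2.le⟩

/-- The conclusion in the centred case. -/
theorem centred (hk : ∫ θ in (0)..(2 * π), kk κ θ ≤ 2 * π) :
    (∀ θ, κ θ = 0) ∧ ∀ c ∈ Ioo (0:ℝ) 1, ∃ r : ℝ, 0 < r ∧ ∀ θ, U c θ = r := by
  have hκ := h.κ_zero hk
  refine ⟨hκ, fun c hc => ⟨U c 0, ?_, ?_⟩⟩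
  · have := h.κ_lt hc 0
    rw [hκ] at this
    have h2 : Uf U (c, 0) = U c 0 := rfl
    rw [h2] at this
    linarith
  · have hd : ∀ θ, D2 U (c, θ) = 0 := by
      intro θ
      have h1 := h.slope hk hc θ
      have h2 : deriv κ θ = 0 := by
        have : κ = fun _ => (0:ℝ) := funext hκ
        rw [this]
        simp
      have h3 := h.κ_lt hc θ
      rw [hκ] at h1 h3
      rw [h2] at h1
      have h4 : Uf U (c, θ) * D2 U (c, θ) = 0 := by linarith
      rcases mul_eq_zero.1 h4 with h5 | h5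
      · rw [h5] at h3
        norm_num at h3
      · exact h5
    intro θ
    exact is_const_of_deriv_eq_zero (f := fun θ => Uf U (c, θ))
      (fun t => (h.hasDerivAt_θ hc t).differentiableAt)
      (fun t => by rw [(h.hasDerivAt_θ hc t).deriv, hd]) θ 0

end Fam

end Pool.Agent.MP_ae5b4e_an_total
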