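import Mathlib
import Pool.Agent.Lib.MP_ae5b4e_an_total.Hopf

/-!
Action of a projective map preserving the unit circle on the families.
-/

noncomputable section

namespace Pool.Agent.MP_ae5b4e_an_total

open Real Set Filter Topology MeasureTheory intervalIntegral

/-- the time component of a unit timelike vector -/
def CC (a b : ℝ) : ℝ := √(1 + a ^ 2 + b ^ 2)

/-- the conformal factor -/
def qq (a b θ : ℝ) : ℝ := CC a b - a * cos θ - b * sin θ

/-- its derivative -/
def dq (a b θ : ℝ) : ℝ := a * sin θ - b * cos θ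

variable (a b : ℝ)

lemma CC_sq : CC a b ^ 2 = 1 + a ^ 2 + b ^ 2 := sq_sqrt (by positivity)

lemma CC_pos : 0 < CC a b := sqrt_pos.2 (by positivity)

lemma qq_pos (θ : ℝ) : 0 < qq a b θ := by
  have h1 : (a * cos θ + b * sin θ) ^ 2 < CC a b ^ 2 := by
    rw [CC_sq]
    nlinarith [sin_sq_add_cos_sq θ, sq_nonneg (a * sin θ - b * cos θ)]
  have h2 := abs_lt_of_sq_lt_sq h1 (CC_pos a b).le
  have h3 := (abs_lt.1 h2).2
  unfold qq
  linarith

lemma hasDerivAt_qq (θ : ℝ) : HasDerivAt (qq a b) (dq a b θ) θ := by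
  have h1 := ((hasDerivAt_const θ (CC a b)).sub ((hasDerivAt_cos θ).const_mul a)).sub
    ((hasDerivAt_sin θ).const_mul b)
  refine HasDerivAt.congr_deriv h1 ?_
  unfold dq
  ring

lemma hasDerivAt_dq (θ : ℝ) : HasDerivAt (dq a b) (CC a b - qq a b θ) θ := by
  have h1 := ((hasDerivAt_sin θ).const_mul a).sub ((hasDerivAt_cos θ).const_mul b)
  refine HasDerivAt.congr_deriv h1 ?_
  unfold qq
  ring

lemma qq_rel (θ : ℝ) : 2 * CC a b * qq a b θ = 1 + qq a b θ ^ 2 + dq a b θ ^ 2 := by
  have h1 := CC_sq a b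
  have h2 := sin_sq_add_cos_sq θ
  unfold qq dq
  have h3 : (1:ℝ) + (CC a b - a * cos θ - b * sin θ) ^ 2 + (a * sin θ - b * cos θ) ^ 2 -
      2 * CC a b * (CC a b - a * cos θ - b * sin θ) =
      1 + (a ^ 2 + b ^ 2) * (sin θ ^ 2 + cos θ ^ 2) - CC a b ^ 2 := by ring
  rw [h2, h1] at h3
  linarith

lemma contDiff_qq : ContDiff ℝ ⊤ (qq a b) := by
  unfold qq
  fun_prop

lemma contDiff_dq : ContDiff ℝ ⊤ (dq a b) := by
  unfold dq
  fun_prop

lemma continuous_qq : Continuous (qq a b) := (contDiff_qq a b).continuous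

lemma continuous_dq : Continuous (dq a b) := (contDiff_dq a b).continuous

lemma qq_per (θ : ℝ) : qq a b (θ + 2 * π) = qq a b θ := by
  unfold qq
  rw [cos_add_two_pi, sin_add_two_pi]

lemma dq_per (θ : ℝ) : dq a b (θ + 2 * π) = dq a b θ := by
  unfold dq
  rw [cos_add_two_pi, sin_add_two_pi]

/-- the second tangency angle -/
def nx (θ u : ℝ) : ℝ := θ + π - 2 * arctan u

lemma cos_two_arctan (s : ℝ) : cos (2 * arctan s) = (1 - s ^ 2) / (1 + s ^ 2) := by
  have h : (0:ℝ) < 1 + s ^ 2 := by positivity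
  rw [cos_two_mul, cos_sq_arctan]
  field_simp
  ring

lemma sin_two_arctan (s : ℝ) : sin (2 * arctan s) = 2 * s / (1 + s ^ 2) := by
  have h : (0:ℝ) < 1 + s ^ 2 := by positivity
  rw [sin_two_mul, sin_arctan, cos_arctan]
  have h2 : √(1 + s ^ 2) ^ 2 = 1 + s ^ 2 := sq_sqrt h.le
  have h3 : √(1 + s ^ 2) ≠ 0 := (sqrt_pos.2 h).ne'
  field_simp
  rw [h2]

lemma cos_nx (θ u : ℝ) : cos (nx θ u) = (cos θ * (u ^ 2 - 1) - sin θ * (2 * u)) / (1 + u ^ 2) := by
  have h : (0:ℝ) < 1 + u ^ 2 := by positivity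
  unfold nx
  have e : θ + π - 2 * arctan u = (θ - 2 * arctan u) + π := by ring
  rw [e, cos_add_pi, cos_sub, cos_two_arctan, sin_two_arctan]
  field_simp
  ring

lemma sin_nx (θ u : ℝ) : sin (nx θ u) = (sin θ * (u ^ 2 - 1) + cos θ * (2 * u)) / (1 + u ^ 2) := by
  have h : (0:ℝ) < 1 + u ^ 2 := by positivity
  unfold nx
  have e : θ + π - 2 * arctan u = (θ - 2 * arctan u) + π := by ring
  rw [e, sin_add_pi, sin_sub, cos_two_arctan, sin_two_arctan]
  field_simp
  ring

lemma qq_nx (θ u : ℝ) :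
    qq a b (nx θ u) * (1 + u ^ 2) = 2 * CC a b + qq a b θ * (u ^ 2 - 1) + 2 * u * dq a b θ := by
  have h : (0:ℝ) < 1 + u ^ 2 := by positivity
  have e : qq a b (nx θ u) = CC a b - a * cos (nx θ u) - b * sin (nx θ u) := rfl
  rw [e, cos_nx, sin_nx]
  unfold qq dq
  field_simp
  ring

lemma dq_nx (θ u : ℝ) :
    dq a b (nx θ u) * (1 + u ^ 2) = 2 * u * CC a b - 2 * u * qq a b θ + (u ^ 2 - 1) * dq a b θ := by
  have h : (0:ℝ) < 1 + u ^ 2 := by positivity
  have e : dq a b (nx θ u) = a * sin (nx θ u) - b * cos (nx θ u) := rfl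
  rw [e, cos_nx, sin_nx]
  unfold qq dq
  field_simp
  ring

lemma key_prod (θ u : ℝ) :
    qq a b (nx θ u) * (1 + u ^ 2) * qq a b θ = 1 + (qq a b θ * u + dq a b θ) ^ 2 := by
  rw [qq_nx]
  have := qq_rel a b θ
  linear_combination this

lemma key_lin (θ u : ℝ) :
    qq a b (nx θ u) * u - dq a b (nx θ u) = qq a b θ * u + dq a b θ := by
  have h : (0:ℝ) < 1 + u ^ 2 := by positivity
  have h1 := qq_nx a b θ u
  have h2 := dq_nx a b θ u
  have h3 : (qq a b (nx θ u) * u - dq a b (nx θ u)) * (1 + u ^ 2) =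
      (qq a b θ * u + dq a b θ) * (1 + u ^ 2) := by
    linear_combination u * h1 - h2
  exact mul_right_cancel₀ h.ne' h3

/-- the angle in the new coordinates -/
def mm (θ : ℝ) : ℝ := ∫ t in (0)..θ, (qq a b t)⁻¹

lemma continuous_inv_qq : Continuous fun t => (qq a b t)⁻¹ :=
  (continuous_qq a b).inv₀ fun t => (qq_pos a b t).ne'

lemma hasDerivAt_mm (θ : ℝ) : HasDerivAt (mm a b) ((qq a b θ)⁻¹) θ :=
  intervalIntegral.integral_hasDerivAt_right ((continuous_inv_qq a b).intervalIntegrable _ _)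
    ((continuous_inv_qq a b).stronglyMeasurableAtFilter _ _) (continuous_inv_qq a b).continuousAt

lemma continuous_mm : Continuous (mm a b) :=
  continuous_iff_continuousAt.2 fun θ => (hasDerivAt_mm a b θ).continuousAt

lemma mm_zero : mm a b 0 = 0 := by simp [mm]

lemma strictMono_mm : StrictMono (mm a b) := by
  refine strictMono_of_deriv_pos fun θ => ?_
  rw [(hasDerivAt_mm a b θ).deriv]
  exact inv_pos.2 (qq_pos a b θ)

/-- the second tangency angle in the new coordinates -/
lemma mm_nx (θ u : ℝ) : mm a b (nx θ u) = nx (mm a b θ) (qq a b θ * u + dq a b θ) := by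
  set q := qq a b θ with hq
  set p := dq a b θ with hp
  have hqp : 0 < q := qq_pos a b θ
  set F : ℝ → ℝ := fun u => mm a b (nx θ u) - nx (mm a b θ) (q * u + p) with hF
  have hd : ∀ u, HasDerivAt F 0 u := by
    intro u
    have h : (0:ℝ) < 1 + u ^ 2 := by positivity
    have h' : (0:ℝ) < 1 + (q * u + p) ^ 2 := by positivity
    have h1 : HasDerivAt (fun u => nx θ u) (-(2 * (1 / (1 + u ^ 2)))) u := by
      have := ((hasDerivAt_const u (θ + π)).sub ((hasDerivAt_arctan u).const_mul 2))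
      refine this.congr_deriv ?_
      ring
    have h2 : HasDerivAt (fun u => mm a b (nx θ u))
        ((qq a b (nx θ u))⁻¹ * (-(2 * (1 / (1 + u ^ 2))))) u :=
      (hasDerivAt_mm a b (nx θ u)).comp u h1
    have h3 : HasDerivAt (fun u => q * u + p) q u := by
      simpa using ((hasDerivAt_id u).const_mul q).add_const p
    have h4 : HasDerivAt (fun u => nx (mm a b θ) (q * u + p))
        (-(2 * (1 / (1 + (q * u + p) ^ 2) * q))) u := by
      have := ((hasDerivAt_const u (mm a b θ + π)).sub ((h3.arctan).const_mul 2))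
      refine this.congr_deriv ?_
      ring
    refine (h2.sub h4).congr_deriv ?_
    have h5 := key_prod a b θ u
    have h6 := (qq_pos a b (nx θ u)).ne'
    rw [← hq, ← hp] at h5
    rw [← h5]
    field_simp
    ring
  have hconst : ∀ u, F u = F 0 := fun u =>
    is_const_of_deriv_eq_zero (fun t => (hd t).differentiableAt) (fun t => (hd t).deriv) u 0
  have hlim : Tendsto F atTop (𝓝 (mm a b θ - mm a b θ)) := by
    have e1 : Tendsto (fun u => nx θ u) atTop (𝓝 θ) := by
      have h1 : Tendsto arctan atTop (𝓝 (π / 2)) :=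
        tendsto_arctan_atTop.mono_right nhdsWithin_le_nhds
      have := (tendsto_const_nhds (x := θ + π)).sub (h1.const_mul 2)
      have e : θ + π - 2 * (π / 2) = θ := by ring
      rw [e] at this
      exact this
    have e2 : Tendsto (fun u => nx (mm a b θ) (q * u + p)) atTop (𝓝 (mm a b θ)) := by
      have h0 : Tendsto (fun u : ℝ => q * u + p) atTop atTop :=
        tendsto_atTop_add_const_right _ _ (tendsto_id.const_mul_atTop hqp)
      have h1 : Tendsto (fun u : ℝ => arctan (q * u + p)) atTop (𝓝 (π / 2)) :=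
        (tendsto_arctan_atTop.mono_right nhdsWithin_le_nhds).comp h0
      have := (tendsto_const_nhds (x := mm a b θ + π)).sub (h1.const_mul 2)
      have e : mm a b θ + π - 2 * (π / 2) = mm a b θ := by ring
      rw [e] at this
      exact this
    exact (((continuous_mm a b).tendsto θ).comp e1).sub e2
  have h0 : F 0 = 0 := by
    have h1 : Tendsto F atTop (𝓝 (F 0)) := by
      have : F = fun _ => F 0 := funext hconst
      rw [this]
      exact tendsto_const_nhds
    have := tendsto_nhds_unique h1 hlim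
    rw [this, sub_self]
  have h1 := hconst u
  rw [h0] at h1
  exact sub_eq_zero.1 h1

lemma mm_add_two_pi (θ : ℝ) : mm a b (θ + 2 * π) = mm a b θ + 2 * π := by
  have e1 : Tendsto (fun u => nx θ u) atBot (𝓝 (θ + 2 * π)) := by
    have h1 : Tendsto arctan atBot (𝓝 (-(π / 2))) :=
      tendsto_arctan_atBot.mono_right nhdsWithin_le_nhds
    have := (tendsto_const_nhds (x := θ + π)).sub (h1.const_mul 2)
    have e : θ + π - 2 * (-(π / 2)) = θ + 2 * π := by ring
    rw [e] at this
    exact this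
  have e2 : Tendsto (fun u => nx (mm a b θ) (qq a b θ * u + dq a b θ)) atBot
      (𝓝 (mm a b θ + 2 * π)) := by
    have h0 : Tendsto (fun u : ℝ => qq a b θ * u + dq a b θ) atBot atBot :=
      tendsto_atBot_add_const_right _ _ (tendsto_id.const_mul_atBot (qq_pos a b θ))
    have h1 : Tendsto (fun u : ℝ => arctan (qq a b θ * u + dq a b θ)) atBot (𝓝 (-(π / 2))) :=
      (tendsto_arctan_atBot.mono_right nhdsWithin_le_nhds).comp h0
    have := (tendsto_const_nhds (x := mm a b θ + π)).sub (h1.const_mul 2)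
    have e : mm a b θ + π - 2 * (-(π / 2)) = mm a b θ + 2 * π := by ring
    rw [e] at this
    exact this
  have h1 := ((continuous_mm a b).tendsto (θ + 2 * π)).comp e1
  have h2 : (mm a b ∘ fun u => nx θ u) = fun u => nx (mm a b θ) (qq a b θ * u + dq a b θ) :=
    funext fun u => mm_nx a b θ u
  rw [h2] at h1
  exact tendsto_nhds_unique h1 e2

lemma surjective_mm : Function.Surjective (mm a b) :=
  surjective_of_shift (by positivity : (0:ℝ) < 2 * π) (continuous_mm a b) (mm_add_two_pi a b)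

/-- the old angle as a function of the new one -/
def nn (τ : ℝ) : ℝ := (Equiv.ofBijective (mm a b)
  ⟨(strictMono_mm a b).injective, surjective_mm a b⟩).symm τ

lemma mm_nn (τ : ℝ) : mm a b (nn a b τ) = τ :=
  (Equiv.ofBijective (mm a b) ⟨(strictMono_mm a b).injective, surjective_mm a b⟩).apply_symm_apply τ

lemma nn_mm (θ : ℝ) : nn a b (mm a b θ) = θ :=
  (Equiv.ofBijective (mm a b) ⟨(strictMono_mm a b).injective, surjective_mm a b⟩).symm_apply_apply θ

lemma strictMono_nn : StrictMono (nn a b) := by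
  intro x y hxy
  by_contra hneg
  push Not at hneg
  have := (strictMono_mm a b).monotone hneg
  rw [mm_nn, mm_nn] at this
  linarith

lemma surjective_nn : Function.Surjective (nn a b) := fun θ => ⟨mm a b θ, nn_mm a b θ⟩

lemma continuous_nn : Continuous (nn a b) :=
  (strictMono_nn a b).monotone.continuous_of_surjective (surjective_nn a b)

lemma hasDerivAt_nn (τ : ℝ) : HasDerivAt (nn a b) (qq a b (nn a b τ)) τ := by
  have h1 := hasDerivAt_mm a b (nn a b τ)
  have h2 := HasDerivAt.of_local_left_inverse (f := mm a b) (g := nn a b)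
    (f' := (qq a b (nn a b τ))⁻¹) (a := τ) (continuous_nn a b).continuousAt h1
    (inv_pos.2 (qq_pos a b _)).ne' (Filter.Eventually.of_forall fun y => mm_nn a b y)
  rwa [inv_inv] at h2

lemma contDiff_nn : ContDiff ℝ 1 (nn a b) := by
  rw [contDiff_one_iff_deriv]
  refine ⟨fun τ => (hasDerivAt_nn a b τ).differentiableAt, ?_⟩
  have : deriv (nn a b) = fun τ => qq a b (nn a b τ) := funext fun τ => (hasDerivAt_nn a b τ).deriv
  rw [this]
  exact (continuous_qq a b).comp (continuous_nn a b)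

lemma nn_add_two_pi (τ : ℝ) : nn a b (τ + 2 * π) = nn a b τ + 2 * π := by
  apply (strictMono_mm a b).injective
  rw [mm_nn, mm_add_two_pi, mm_nn]

/-- The family in the new coordinates. -/
def UU (U : ℝ → ℝ → ℝ) (c τ : ℝ) : ℝ := qq a b (nn a b τ) * U c (nn a b τ) + dq a b (nn a b τ)

/-- The involutions in the new coordinates. -/
def κκ (κ : ℝ → ℝ) (τ : ℝ) : ℝ := qq a b (nn a b τ) * κ (nn a b τ) + 2 * dq a b (nn a b τ)

variable {U : ℝ → ℝ → ℝ} {κ : ℝ → ℝ}

lemma nxt_eq_nx (c θ : ℝ) : nxt U c θ = nx θ (U c θ) := rfl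

/-- The family in the new coordinates satisfies the same hypotheses. -/
theorem Fam.transform (h : Fam U κ) : Fam (UU a b U) (κκ a b κ) := by
  have hq := contDiff_qq a b
  have hp := contDiff_dq a b
  have hn := contDiff_nn a b
  refine ⟨?_, ?_, ?_, ?_, ?_, ?_⟩
  · have h1 : ContDiff ℝ 1 fun q : ℝ × ℝ => qq a b (nn a b q.2) :=
      (hq.of_le le_top).comp (hn.comp contDiff_snd)
    have h2 : ContDiff ℝ 1 fun q : ℝ × ℝ => dq a b (nn a b q.2) :=
      (hp.of_le le_top).comp (hn.comp contDiff_snd)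
    have h3 : ContDiffOn ℝ 1 (fun q : ℝ × ℝ => U q.1 (nn a b q.2)) (Ioo 0 1 ×ˢ univ) := by
      have h4 : ContDiff ℝ 1 fun q : ℝ × ℝ => (q.1, nn a b q.2) :=
        contDiff_fst.prodMk (hn.comp contDiff_snd)
      exact h.smooth.comp h4.contDiffOn (fun q hq => ⟨hq.1, mem_univ _⟩)
    exact (h1.contDiffOn.mul h3).add h2.contDiffOn
  · intro c hc τ
    unfold UU
    rw [nn_add_two_pi, qq_per, dq_per, h.per c hc]
  · intro c hc τ
    have h1 : HasDerivAt (fun t => U t (nn a b τ)) (D1 U (c, nn a b τ)) c := h.hasDerivAt_c hc _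
    have h2 : HasDerivAt (fun t => UU a b U t τ)
        (qq a b (nn a b τ) * D1 U (c, nn a b τ)) c :=
      (h1.const_mul _).add_const _
    rw [h2.deriv]
    exact mul_neg_of_pos_of_neg (qq_pos a b _) (h.D1_neg hc _)
  · intro τ
    unfold UU
    exact tendsto_atTop_add_const_right _ _ ((h.lim0 _).const_mul_atTop (qq_pos a b _))
  · intro τ
    have h1 := ((h.lim1 (nn a b τ)).const_mul (qq a b (nn a b τ))).add_const (dq a b (nn a b τ))
    have e : qq a b (nn a b τ) * (κ (nn a b τ) / 2) + dq a b (nn a b τ) = κκ a b κ τ / 2 := by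
      unfold κκ
      ring
    rw [e] at h1
    exact h1
  · intro c hc τ
    have h1 : nn a b (nxt (UU a b U) c τ) = nxt U c (nn a b τ) := by
      apply (strictMono_mm a b).injective
      rw [mm_nn, nxt_eq_nx, nxt_eq_nx, mm_nx, mm_nn]
      rfl
    have e1 : UU a b U c (nxt (UU a b U) c τ) = qq a b (nxt U c (nn a b τ)) *
        U c (nxt U c (nn a b τ)) + dq a b (nxt U c (nn a b τ)) := by
      unfold UU
      unfold UU at h1
      rw [h1]
    have e2 : κκ a b κ (nxt (UU a b U) c τ) = qq a b (nxt U c (nn a b τ)) *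
        κ (nxt U c (nn a b τ)) + 2 * dq a b (nxt U c (nn a b τ)) := by
      unfold κκ
      rw [h1]
    rw [e1, e2]
    have h2 := h.feq c hc (nn a b τ)
    have h3 := key_lin a b (nn a b τ) (U c (nn a b τ))
    rw [← nxt_eq_nx] at h3
    have e3 : UU a b U c τ = qq a b (nn a b τ) * U c (nn a b τ) + dq a b (nn a b τ) := rfl
    rw [e3, ← h3, ← h2]
    ring

end Pool.Agent.MP_ae5b4e_an_total
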