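import Mathlib
import Pool.Agent.Lib.MP_ae5b4e_an_total.Moebius
import Pool.Agent.Lib.MP_ae5b4e_an_total.BS

/-!
The centre, and the conclusion.
-/

noncomputable section

namespace Pool.Agent.MP_ae5b4e_an_total

open Real Set Filter Topology MeasureTheory intervalIntegral

section Centre

variable {ρ : ℝ → ℝ}

lemma expand (hρ : Continuous ρ) (A B D E F G : ℝ) :
    ∫ θ in (0)..(2 * π), ρ θ * (A + B * cos θ + D * sin θ + E * cos θ ^ 2 + F * sin θ ^ 2 +
      G * (cos θ * sin θ)) =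
      A * (∫ θ in (0)..(2 * π), ρ θ) + B * (∫ θ in (0)..(2 * π), ρ θ * cos θ) +
      D * (∫ θ in (0)..(2 * π), ρ θ * sin θ) + E * (∫ θ in (0)..(2 * π), ρ θ * cos θ ^ 2) +
      F * (∫ θ in (0)..(2 * π), ρ θ * sin θ ^ 2) +
      G * (∫ θ in (0)..(2 * π), ρ θ * (cos θ * sin θ)) := by
  have ii : ∀ {g : ℝ → ℝ}, Continuous g → IntervalIntegrable g volume 0 (2 * π) :=
    fun hg => hg.intervalIntegrable _ _
  rw [← intervalIntegral.integral_const_mul, ← intervalIntegral.integral_const_mul,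
    ← intervalIntegral.integral_const_mul, ← intervalIntegral.integral_const_mul,
    ← intervalIntegral.integral_const_mul, ← intervalIntegral.integral_const_mul,
    ← intervalIntegral.integral_add (ii (by fun_prop)) (ii (by fun_prop)),
    ← intervalIntegral.integral_add (ii (by fun_prop)) (ii (by fun_prop)),
    ← intervalIntegral.integral_add (ii (by fun_prop)) (ii (by fun_prop)),
    ← intervalIntegral.integral_add (ii (by fun_prop)) (ii (by fun_prop)),
    ← intervalIntegral.integral_add (ii (by fun_prop)) (ii (by fun_prop))]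
  refine intervalIntegral.integral_congr fun θ _ => ?_
  ring

lemma integral_sq_lower (a b : ℝ) : 2 * π * CC a b ^ 2 ≤ ∫ θ in (0)..(2 * π), qq a b θ ^ 2 := by
  have hq := continuous_qq a b
  have ii : ∀ {g : ℝ → ℝ}, Continuous g → IntervalIntegrable g volume 0 (2 * π) :=
    fun hg => hg.intervalIntegrable _ _
  have h1 : ∫ θ in (0)..(2 * π), (2 * CC a b * qq a b θ - CC a b ^ 2) = 2 * π * CC a b ^ 2 := by
    have h2 := expand (ρ := fun _ => (1:ℝ)) continuous_const
      (2 * CC a b * CC a b - CC a b ^ 2) (-(2 * CC a b * a)) (-(2 * CC a b * b)) 0 0 0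
    have h3 : ∫ θ in (0)..(2 * π), (2 * CC a b * qq a b θ - CC a b ^ 2) =
        ∫ θ in (0)..(2 * π), (fun _ => (1:ℝ)) θ * ((2 * CC a b * CC a b - CC a b ^ 2) +
          (-(2 * CC a b * a)) * cos θ + (-(2 * CC a b * b)) * sin θ + 0 * cos θ ^ 2 +
          0 * sin θ ^ 2 + 0 * (cos θ * sin θ)) := by
      refine intervalIntegral.integral_congr fun θ _ => ?_
      simp only [qq]
      ring
    rw [h3, h2]
    simp
    ring
  rw [← h1]
  refine intervalIntegral.integral_mono_on (by positivity) (ii (by fun_prop)) (ii (by fun_prop)) ?_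
  intro θ _
  nlinarith [sq_nonneg (qq a b θ - CC a b)]

/-- There is a centre. -/
theorem exists_centre (hρ : Continuous ρ) (hpos : ∀ θ, 0 < ρ θ) :
    ∃ a b : ℝ, ∫ θ in (0)..(2 * π), ρ θ * (qq a b θ * (a - CC a b * cos θ)) = 0 ∧
      ∫ θ in (0)..(2 * π), ρ θ * (qq a b θ * (b - CC a b * sin θ)) = 0 := by
  have hpi : (0:ℝ) < 2 * π := by positivity
  have ii : ∀ {g : ℝ → ℝ}, Continuous g → IntervalIntegrable g volume 0 (2 * π) :=
    fun hg => hg.intervalIntegrable _ _
  set I0 := ∫ θ in (0)..(2 * π), ρ θ with hI0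
  set Ic := ∫ θ in (0)..(2 * π), ρ θ * cos θ with hIc
  set Is := ∫ θ in (0)..(2 * π), ρ θ * sin θ with hIs
  set Icc' := ∫ θ in (0)..(2 * π), ρ θ * cos θ ^ 2 with hIcc
  set Iss := ∫ θ in (0)..(2 * π), ρ θ * sin θ ^ 2 with hIss
  set Ics := ∫ θ in (0)..(2 * π), ρ θ * (cos θ * sin θ) with hIcs
  set F : ℝ × ℝ → ℝ := fun p => (1 + p.1 ^ 2 + p.2 ^ 2) * I0 + p.1 ^ 2 * Icc' + p.2 ^ 2 * Iss +
    2 * p.1 * p.2 * Ics - 2 * √(1 + p.1 ^ 2 + p.2 ^ 2) * (p.1 * Ic + p.2 * Is) with hF
  have hFc : Continuous F := by simp only [hF]; fun_prop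
  have hFe : ∀ p : ℝ × ℝ, F p = ∫ θ in (0)..(2 * π), ρ θ * qq p.1 p.2 θ ^ 2 := by
    rintro ⟨a, b⟩
    have h1 := expand hρ (CC a b ^ 2) (-(2 * a * CC a b)) (-(2 * b * CC a b)) (a ^ 2) (b ^ 2)
      (2 * a * b)
    have h2 : ∫ θ in (0)..(2 * π), ρ θ * qq a b θ ^ 2 = ∫ θ in (0)..(2 * π), ρ θ *
        (CC a b ^ 2 + (-(2 * a * CC a b)) * cos θ + (-(2 * b * CC a b)) * sin θ +
          a ^ 2 * cos θ ^ 2 + b ^ 2 * sin θ ^ 2 + (2 * a * b) * (cos θ * sin θ)) := by
      refine intervalIntegral.integral_congr fun θ _ => ?_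
      simp only [qq]
      ring
    simp only
    rw [h2, h1]
    simp only [hF]
    have h3 := CC_sq a b
    have h4 : √(1 + a ^ 2 + b ^ 2) = CC a b := rfl
    rw [h4, ← hI0, ← hIc, ← hIs, ← hIcc, ← hIss, ← hIcs]
    linear_combination (-I0) * h3
  -- lower bound of `ρ`
  obtain ⟨δ, hδ, hδρ⟩ : ∃ δ > 0, ∀ θ ∈ Icc 0 (2 * π), δ ≤ ρ θ := by
    obtain ⟨x, hx, hxm⟩ := isCompact_Icc.exists_isMinOn (nonempty_Icc.2 hpi.le)
      (hρ.continuousOn (s := Icc 0 (2 * π)))
    exact ⟨ρ x, hpos x, fun θ hθ => hxm hθ⟩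
  have hlow : ∀ p : ℝ × ℝ, (δ * (2 * π)) * ‖p‖ ≤ F p := by
    intro p
    have h1 : δ * (2 * π * CC p.1 p.2 ^ 2) ≤ F p := by
      rw [hFe]
      have h2 : ∫ θ in (0)..(2 * π), δ * qq p.1 p.2 θ ^ 2 ≤
          ∫ θ in (0)..(2 * π), ρ θ * qq p.1 p.2 θ ^ 2 := by
        have hq := continuous_qq p.1 p.2
        refine intervalIntegral.integral_mono_on hpi.le (ii (by fun_prop)) (ii (by fun_prop)) ?_
        intro θ hθ
        exact mul_le_mul_of_nonneg_right (hδρ θ hθ) (sq_nonneg _)
      rw [intervalIntegral.integral_const_mul] at h2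
      have h3 := mul_le_mul_of_nonneg_left (integral_sq_lower p.1 p.2) hδ.le
      linarith
    have h2 : ‖p‖ ≤ CC p.1 p.2 ^ 2 := by
      rw [CC_sq]
      have h3 : ‖p‖ ^ 2 ≤ p.1 ^ 2 + p.2 ^ 2 := by
        rw [Prod.norm_def]
        rcases le_total ‖p.1‖ ‖p.2‖ with h | h
        · rw [max_eq_right h, Real.norm_eq_abs, sq_abs]
          nlinarith [sq_nonneg p.1]
        · rw [max_eq_left h, Real.norm_eq_abs, sq_abs]
          nlinarith [sq_nonneg p.2]
      nlinarith [sq_nonneg (‖p‖ - 1), norm_nonneg p]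
    calc δ * (2 * π) * ‖p‖ ≤ δ * (2 * π) * CC p.1 p.2 ^ 2 :=
          mul_le_mul_of_nonneg_left h2 (by positivity)
      _ = δ * (2 * π * CC p.1 p.2 ^ 2) := by ring
      _ ≤ F p := h1
  have hlim : Tendsto F (cocompact (ℝ × ℝ)) atTop :=
    tendsto_atTop_mono hlow
      ((tendsto_norm_cocompact_atTop (E := ℝ × ℝ)).const_mul_atTop (by positivity))
  obtain ⟨⟨a, b⟩, hmin⟩ := hFc.exists_forall_le hlim
  refine ⟨a, b, ?_, ?_⟩
  · have hC := CC_pos a b
    have hCs := CC_sq a b
    have hd : HasDerivAt (fun x => F (x, b)) (2 * a * I0 + 2 * a * Icc' + 2 * b * Ics -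
        2 * (a / CC a b * (a * Ic + b * Is) + CC a b * Ic)) a := by
      have h1 : HasDerivAt (fun x : ℝ => 1 + x ^ 2 + b ^ 2) (2 * a) a := by
        simpa using (((hasDerivAt_id a).pow 2).const_add 1).add_const (b ^ 2)
      have h2 : HasDerivAt (fun x : ℝ => √(1 + x ^ 2 + b ^ 2)) (a / CC a b) a := by
        have := h1.sqrt (by positivity)
        refine this.congr_deriv ?_
        show 2 * a / (2 * √(1 + a ^ 2 + b ^ 2)) = a / √(1 + a ^ 2 + b ^ 2)
        rw [mul_div_mul_left _ _ two_ne_zero]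
      have h3 : HasDerivAt (fun x : ℝ => x ^ 2 * Icc') (2 * a * Icc') a := by
        simpa using ((hasDerivAt_id a).pow 2).mul_const Icc'
      have h4 : HasDerivAt (fun x : ℝ => 2 * x * b * Ics) (2 * b * Ics) a := by
        have := (((hasDerivAt_id a).const_mul 2).mul_const b).mul_const Ics
        simpa using this
      have h5 : HasDerivAt (fun x : ℝ => x * Ic + b * Is) Ic a := by
        simpa using ((hasDerivAt_id a).mul_const Ic).add_const (b * Is)
      have h6 := ((((h1.mul_const I0).add h3).add_const (b ^ 2 * Iss)).add h4).sub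
        ((h2.const_mul 2).mul h5)
      refine h6.congr_deriv ?_
      show 2 * a * I0 + 2 * a * Icc' + 2 * b * Ics -
        (2 * (a / CC a b) * (a * Ic + b * Is) + 2 * CC a b * Ic) = _
      ring
    have hz : 2 * a * I0 + 2 * a * Icc' + 2 * b * Ics -
        2 * (a / CC a b * (a * Ic + b * Is) + CC a b * Ic) = 0 := by
      refine IsLocalMin.hasDerivAt_eq_zero (f := fun x => F (x, b)) (a := a) ?_ hd
      exact Filter.Eventually.of_forall fun x => hmin (x, b)
    have h1 := expand hρ (a * CC a b) (-(CC a b ^ 2) - a ^ 2) (-(a * b)) (a * CC a b) 0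
      (b * CC a b)
    have h2 : ∫ θ in (0)..(2 * π), ρ θ * (qq a b θ * (a - CC a b * cos θ)) =
        ∫ θ in (0)..(2 * π), ρ θ * (a * CC a b + (-(CC a b ^ 2) - a ^ 2) * cos θ +
          (-(a * b)) * sin θ + (a * CC a b) * cos θ ^ 2 + 0 * sin θ ^ 2 +
          (b * CC a b) * (cos θ * sin θ)) := by
      refine intervalIntegral.integral_congr fun θ _ => ?_
      simp only [qq]
      ring
    rw [h2, h1, ← hI0, ← hIc, ← hIs, ← hIcc, ← hIss, ← hIcs]
    have h3 : a * CC a b * I0 + (-(CC a b ^ 2) - a ^ 2) * Ic + -(a * b) * Is +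
        a * CC a b * Icc' + 0 * Iss + b * CC a b * Ics = CC a b / 2 * (2 * a * I0 + 2 * a * Icc' +
        2 * b * Ics - 2 * (a / CC a b * (a * Ic + b * Is) + CC a b * Ic)) := by
      field_simp
      ring
    rw [h3, hz, mul_zero]
  · have hC := CC_pos a b
    have hCs := CC_sq a b
    have hd : HasDerivAt (fun x => F (a, x)) (2 * b * I0 + 2 * b * Iss + 2 * a * Ics -
        2 * (b / CC a b * (a * Ic + b * Is) + CC a b * Is)) b := by
      have h1 : HasDerivAt (fun x : ℝ => 1 + a ^ 2 + x ^ 2) (2 * b) b := by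
        simpa using ((hasDerivAt_id b).pow 2).const_add (1 + a ^ 2)
      have h2 : HasDerivAt (fun x : ℝ => √(1 + a ^ 2 + x ^ 2)) (b / CC a b) b := by
        have := h1.sqrt (by positivity)
        refine this.congr_deriv ?_
        show 2 * b / (2 * √(1 + a ^ 2 + b ^ 2)) = b / √(1 + a ^ 2 + b ^ 2)
        rw [mul_div_mul_left _ _ two_ne_zero]
      have h3 : HasDerivAt (fun x : ℝ => x ^ 2 * Iss) (2 * b * Iss) b := by
        simpa using ((hasDerivAt_id b).pow 2).mul_const Iss
      have h4 : HasDerivAt (fun x : ℝ => 2 * a * x * Ics) (2 * a * Ics) b := by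
        have := ((hasDerivAt_id b).const_mul (2 * a)).mul_const Ics
        simpa using this
      have h5 : HasDerivAt (fun x : ℝ => a * Ic + x * Is) Is b := by
        simpa using ((hasDerivAt_id b).mul_const Is).const_add (a * Ic)
      have h6 := (((((h1.mul_const I0).add_const (a ^ 2 * Icc'))).add h3).add h4).sub
        ((h2.const_mul 2).mul h5)
      refine h6.congr_deriv ?_
      show 2 * b * I0 + 2 * b * Iss + 2 * a * Ics -
        (2 * (b / CC a b) * (a * Ic + b * Is) + 2 * CC a b * Is) = _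
      ring
    have hz : 2 * b * I0 + 2 * b * Iss + 2 * a * Ics -
        2 * (b / CC a b * (a * Ic + b * Is) + CC a b * Is) = 0 := by
      refine IsLocalMin.hasDerivAt_eq_zero (f := fun x => F (a, x)) (a := b) ?_ hd
      exact Filter.Eventually.of_forall fun x => hmin (a, x)
    have h1 := expand hρ (b * CC a b) (-(a * b)) (-(CC a b ^ 2) - b ^ 2) 0 (b * CC a b)
      (a * CC a b)
    have h2 : ∫ θ in (0)..(2 * π), ρ θ * (qq a b θ * (b - CC a b * sin θ)) =
        ∫ θ in (0)..(2 * π), ρ θ * (b * CC a b + (-(a * b)) * cos θ +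
          (-(CC a b ^ 2) - b ^ 2) * sin θ + 0 * cos θ ^ 2 + (b * CC a b) * sin θ ^ 2 +
          (a * CC a b) * (cos θ * sin θ)) := by
      refine intervalIntegral.integral_congr fun θ _ => ?_
      simp only [qq]
      ring
    rw [h2, h1, ← hI0, ← hIc, ← hIs, ← hIcc, ← hIss, ← hIcs]
    have h3 : b * CC a b * I0 + -(a * b) * Ic + (-(CC a b ^ 2) - b ^ 2) * Is +
        0 * Icc' + b * CC a b * Iss + a * CC a b * Ics = CC a b / 2 * (2 * b * I0 + 2 * b * Iss +
        2 * a * Ics - 2 * (b / CC a b * (a * Ic + b * Is) + CC a b * Is)) := by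
      field_simp
      ring
    rw [h3, hz, mul_zero]

end Centre

section Rotation

variable (a b : ℝ)

lemma WX (θ : ℝ) : CC a b * (CC a b * sin θ * qq a b θ - (a - CC a b * cos θ) * dq a b θ) =
    -((1 + b ^ 2) * (b - CC a b * sin θ)) - a * b * (a - CC a b * cos θ) := by
  have hC := CC_sq a b
  have hs := sin_sq_add_cos_sq θ
  unfold qq dq
  linear_combination (CC a b * sin θ - b) * hC - b * CC a b ^ 2 * hs

lemma WY (θ : ℝ) : CC a b * (-(CC a b * cos θ) * qq a b θ - (b - CC a b * sin θ) * dq a b θ) =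
    (1 + a ^ 2) * (a - CC a b * cos θ) + a * b * (b - CC a b * sin θ) := by
  have hC := CC_sq a b
  have hs := sin_sq_add_cos_sq θ
  unfold qq dq
  linear_combination (a - CC a b * cos θ) * hC + a * CC a b ^ 2 * hs

/-- `q cos m` -/
def PP (θ : ℝ) : ℝ := (-1 + b ^ 2 / (CC a b * (CC a b - a))) * (a - CC a b * cos θ) +
  b / CC a b * (b - CC a b * sin θ)

/-- `q sin m` -/
def QQ (θ : ℝ) : ℝ := -(b / (CC a b * (CC a b - a))) * (a - CC a b * cos θ) +
  -(1 / CC a b) * (b - CC a b * sin θ)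

lemma q0_pos : 0 < CC a b - a := by
  have := qq_pos a b 0
  simpa [qq] using this

lemma hasDerivAt_X (θ : ℝ) : HasDerivAt (fun θ => a - CC a b * cos θ) (CC a b * sin θ) θ := by
  have := ((hasDerivAt_cos θ).const_mul (CC a b)).const_sub a
  refine this.congr_deriv ?_
  ring

lemma hasDerivAt_Y (θ : ℝ) : HasDerivAt (fun θ => b - CC a b * sin θ) (-(CC a b * cos θ)) θ :=
  ((hasDerivAt_sin θ).const_mul (CC a b)).const_sub b

lemma coef1 : -(-1 + b ^ 2 / (CC a b * (CC a b - a))) * a * b + b / CC a b * (1 + a ^ 2) =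
    b / (CC a b - a) := by
  have hC := CC_sq a b
  have h0 := (CC_pos a b).ne'
  have h1 := (q0_pos a b).ne'
  field_simp
  linear_combination (a * b) * hC

lemma coef2 : -(-1 + b ^ 2 / (CC a b * (CC a b - a))) * (1 + b ^ 2) + b / CC a b * (a * b) = 1 := by
  have hC := CC_sq a b
  have h0 := (CC_pos a b).ne'
  have h1 := (q0_pos a b).ne'
  field_simp
  linear_combination b ^ 2 * hC

lemma coef3 : (b / (CC a b * (CC a b - a))) * a * b - (1 / CC a b) * (1 + a ^ 2) =
    CC a b * (-1 + b ^ 2 / (CC a b * (CC a b - a))) := by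
  have hC := CC_sq a b
  have h0 := (CC_pos a b).ne'
  have h1 := (q0_pos a b).ne'
  field_simp
  linear_combination (CC a b - a) * hC

lemma coef4 : (b / (CC a b * (CC a b - a))) * (1 + b ^ 2) - (1 / CC a b) * (a * b) =
    CC a b * (b / CC a b) := by
  have hC := CC_sq a b
  have h0 := (CC_pos a b).ne'
  have h1 := (q0_pos a b).ne'
  field_simp
  linear_combination (-b) * hC

lemma hasDerivAt_PP (θ : ℝ) : HasDerivAt (PP a b)
    ((PP a b θ * dq a b θ - QQ a b θ) / qq a b θ) θ := by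
  have h1 := ((hasDerivAt_X a b θ).const_mul (-1 + b ^ 2 / (CC a b * (CC a b - a)))).add
    ((hasDerivAt_Y a b θ).const_mul (b / CC a b))
  refine h1.congr_deriv ?_
  have hq := qq_pos a b θ
  rw [eq_div_iff hq.ne']
  have hX := WX a b θ
  have hY := WY a b θ
  have hCp := (CC_pos a b).ne'
  have hq0 := (q0_pos a b).ne'
  have e1 := coef1 a b
  have e2 := coef2 a b
  have e3 : CC a b * -(b / (CC a b * (CC a b - a))) = -(b / (CC a b - a)) := by field_simp
  have e4 : CC a b * -(1 / CC a b) = -1 := by field_simp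
  unfold PP QQ
  set α := -1 + b ^ 2 / (CC a b * (CC a b - a)) with hα
  set β := b / CC a b with hβ
  set α' := -(b / (CC a b * (CC a b - a))) with hα'
  set β' := -(1 / CC a b) with hβ'
  apply mul_left_cancel₀ hCp
  linear_combination α * hX + β * hY + (a - CC a b * cos θ) * e1 + (b - CC a b * sin θ) * e2 +
    (a - CC a b * cos θ) * e3 + (b - CC a b * sin θ) * e4

lemma hasDerivAt_QQ (θ : ℝ) : HasDerivAt (QQ a b)
    ((QQ a b θ * dq a b θ + PP a b θ) / qq a b θ) θ := by
  have h1 := ((hasDerivAt_X a b θ).const_mul (-(b / (CC a b * (CC a b - a))))).add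
    ((hasDerivAt_Y a b θ).const_mul (-(1 / CC a b)))
  refine h1.congr_deriv ?_
  have hq := qq_pos a b θ
  rw [eq_div_iff hq.ne']
  have hX := WX a b θ
  have hY := WY a b θ
  have hCp := (CC_pos a b).ne'
  have hq0 := (q0_pos a b).ne'
  have e3 := coef3 a b
  have e4 := coef4 a b
  unfold PP QQ
  set α := -1 + b ^ 2 / (CC a b * (CC a b - a)) with hα
  set β := b / CC a b with hβ
  set α' := (b / (CC a b * (CC a b - a))) with hα'
  set β' := (1 / CC a b) with hβ'
  apply mul_left_cancel₀ hCp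
  linear_combination (-α') * hX + (-β') * hY + (a - CC a b * cos θ) * e3 +
    (b - CC a b * sin θ) * e4

lemma PP_zero : PP a b 0 = qq a b 0 := by
  have hC := CC_sq a b
  have h0 := (CC_pos a b).ne'
  have h1 := (q0_pos a b).ne'
  simp only [PP, qq, cos_zero, sin_zero]
  field_simp
  ring

lemma QQ_zero : QQ a b 0 = 0 := by
  have h0 := (CC_pos a b).ne'
  have h1 := (q0_pos a b).ne'
  simp only [QQ, cos_zero, sin_zero]
  field_simp
  ring

/-- `q cos m` and `q sin m` -/
lemma q_cos_sin_mm (θ : ℝ) : qq a b θ * cos (mm a b θ) = PP a b θ ∧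
    qq a b θ * sin (mm a b θ) = QQ a b θ := by
  set E : ℝ → ℝ := fun θ => (PP a b θ * cos (mm a b θ) + QQ a b θ * sin (mm a b θ)) / qq a b θ
    with hE
  set F : ℝ → ℝ := fun θ => (QQ a b θ * cos (mm a b θ) - PP a b θ * sin (mm a b θ)) / qq a b θ
    with hF
  have hEd : ∀ θ, HasDerivAt E 0 θ := by
    intro θ
    have hq := (qq_pos a b θ).ne'
    have h1 := hasDerivAt_PP a b θ
    have h2 := hasDerivAt_QQ a b θ
    have h3 := hasDerivAt_mm a b θ
    have h4 := hasDerivAt_qq a b θ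
    have h5 := ((h1.mul h3.cos).add (h2.mul h3.sin)).div h4 hq
    refine h5.congr_deriv ?_
    simp only [Pi.add_apply, Pi.mul_apply]
    field_simp
    ring
  have hFd : ∀ θ, HasDerivAt F 0 θ := by
    intro θ
    have hq := (qq_pos a b θ).ne'
    have h1 := hasDerivAt_PP a b θ
    have h2 := hasDerivAt_QQ a b θ
    have h3 := hasDerivAt_mm a b θ
    have h4 := hasDerivAt_qq a b θ
    have h5 := ((h2.mul h3.cos).sub (h1.mul h3.sin)).div h4 hq
    refine h5.congr_deriv ?_
    simp only [Pi.sub_apply, Pi.mul_apply]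
    field_simp
    ring
  have h0 := (qq_pos a b 0).ne'
  have hE1 : E θ = 1 := by
    rw [is_const_of_deriv_eq_zero (fun t => (hEd t).differentiableAt) (fun t => (hEd t).deriv) θ 0]
    simp only [hE, mm_zero, cos_zero, sin_zero, PP_zero, QQ_zero, mul_one, mul_zero, add_zero]
    exact div_self h0
  have hF1 : F θ = 0 := by
    rw [is_const_of_deriv_eq_zero (fun t => (hFd t).differentiableAt) (fun t => (hFd t).deriv) θ 0]
    simp only [hF, mm_zero, cos_zero, sin_zero, PP_zero, QQ_zero, mul_one, mul_zero, sub_zero]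
    exact zero_div _
  have hq := (qq_pos a b θ).ne'
  simp only [hE] at hE1
  simp only [hF] at hF1
  rw [div_eq_iff hq] at hE1 hF1
  have hcs := sin_sq_add_cos_sq (mm a b θ)
  constructor
  · linear_combination (-cos (mm a b θ)) * hE1 + sin (mm a b θ) * hF1 + PP a b θ * hcs
  · linear_combination (-sin (mm a b θ)) * hE1 - cos (mm a b θ) * hF1 + QQ a b θ * hcs

end Rotation

end Pool.Agent.MP_ae5b4e_an_total
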