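import Mathlib
import Pool.Agent.Lib.MP_ae5b4e_an_total.Center

/-!
The conclusion for general families.
-/

noncomputable section

namespace Pool.Agent.MP_ae5b4e_an_total

open Real Set Filter Topology MeasureTheory intervalIntegral

/-- the weight -/
def ww (κ : ℝ → ℝ) (θ : ℝ) : ℝ := exp (-(∫ t in (0)..θ, κ t) / 2)

variable {U : ℝ → ℝ → ℝ} {κ : ℝ → ℝ}

namespace Fam

variable (h : Fam U κ)
include h

lemma hasDerivAt_ww (θ : ℝ) : HasDerivAt (ww κ) (-(κ θ / 2) * ww κ θ) θ := by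
  have hκ := h.continuous_κ
  have h1 : HasDerivAt (fun θ => ∫ t in (0)..θ, κ t) (κ θ) θ :=
    intervalIntegral.integral_hasDerivAt_right (hκ.intervalIntegrable _ _)
      (hκ.stronglyMeasurableAtFilter _ _) hκ.continuousAt
  have h2 := ((h1.neg).div_const 2).exp
  refine HasDerivAt.congr_deriv h2 ?_
  simp only [ww, Pi.neg_apply]
  ring

omit h in
lemma ww_pos (θ : ℝ) : 0 < ww κ θ := exp_pos _

lemma ww_per (θ : ℝ) : ww κ (θ + 2 * π) = ww κ θ := by
  have hκ := h.continuous_κ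
  have h1 : (∫ t in (0)..(θ + 2 * π), κ t) = ∫ t in (0)..θ, κ t := by
    rw [← intervalIntegral.integral_add_adjacent_intervals (hκ.intervalIntegrable 0 θ)
      (hκ.intervalIntegrable θ (θ + 2 * π))]
    have h2 : Function.Periodic κ (2 * π) := h.κ_per
    rw [h2.intervalIntegral_add_eq θ 0, zero_add, h.mean_zero, add_zero]
  unfold ww
  rw [h1]

lemma continuous_ww : Continuous (ww κ) :=
  continuous_iff_continuousAt.2 fun θ => (h.hasDerivAt_ww θ).continuousAt

/-- Every family is a pencil. -/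
theorem pencil : ∃ a b : ℝ, ∀ c ∈ Ioo (0:ℝ) 1, ∃ r : ℝ, 0 < r ∧
    ∀ θ, qq a b θ * U c θ + dq a b θ = r := by
  have hwc := h.continuous_ww
  have hwp : ∀ θ, 0 < ww κ θ := fun θ => ww_pos θ
  have hρc : Continuous fun θ => (ww κ θ ^ 3)⁻¹ :=
    (hwc.pow 3).inv₀ fun θ => (pow_pos (hwp θ) 3).ne'
  obtain ⟨a, b, ha, hb⟩ := exists_centre hρc (fun θ => inv_pos.2 (pow_pos (hwp θ) 3))
  have h' := h.transform a b
  set w' : ℝ → ℝ := fun τ => ww κ (nn a b τ) / qq a b (nn a b τ) with hw'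
  have hqc := continuous_qq a b
  have hw'p : ∀ τ, 0 < w' τ := fun τ => div_pos (hwp _) (qq_pos a b _)
  have hw'd : ∀ τ, HasDerivAt w' (-(κκ a b κ τ / 2) * w' τ) τ := by
    intro τ
    have h1 := hasDerivAt_nn a b τ
    have h2 := (h.hasDerivAt_ww (nn a b τ)).comp τ h1
    have h3 := (hasDerivAt_qq a b (nn a b τ)).comp τ h1
    have hq := (qq_pos a b (nn a b τ)).ne'
    have h4 := h2.div h3 hq
    refine h4.congr_deriv ?_
    simp only [Function.comp, hw', κκ]
    field_simp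
    ring
  have hw'c : Continuous w' := continuous_iff_continuousAt.2 fun θ => (hw'd θ).continuousAt
  have hw'per : ∀ τ, w' (τ + 2 * π) = w' τ := by
    intro τ
    simp only [hw']
    rw [nn_add_two_pi, h.ww_per, qq_per]
  have hτ0 : mm a b (2 * π) = mm a b 0 + 2 * π := by simpa using mm_add_two_pi a b 0
  have ii : ∀ {g : ℝ → ℝ}, Continuous g → IntervalIntegrable g volume 0 (2 * π) :=
    fun hg => hg.intervalIntegrable _ _
  have hinv : Continuous fun τ => (w' τ ^ 3)⁻¹ :=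
    (hw'c.pow 3).inv₀ fun τ => (pow_pos (hw'p τ) 3).ne'
  -- linear combinations
  have hlin : ∀ x y : ℝ, ∫ θ in (0)..(2 * π), (ww κ θ ^ 3)⁻¹ * (qq a b θ *
      (x * (a - CC a b * cos θ) + y * (b - CC a b * sin θ))) = 0 := by
    intro x y
    have e : ∀ θ, (ww κ θ ^ 3)⁻¹ * (qq a b θ *
      (x * (a - CC a b * cos θ) + y * (b - CC a b * sin θ))) =
      x * ((ww κ θ ^ 3)⁻¹ * (qq a b θ * (a - CC a b * cos θ))) +
      y * ((ww κ θ ^ 3)⁻¹ * (qq a b θ * (b - CC a b * sin θ))) := fun θ => by ring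
    simp only [e]
    rw [intervalIntegral.integral_add (ii (by fun_prop)) (ii (by fun_prop)),
      intervalIntegral.integral_const_mul, intervalIntegral.integral_const_mul, ha, hb]
    ring
  have hval : ∀ θ, w' (mm a b θ) = ww κ θ / qq a b θ := by
    intro θ
    simp only [hw', nn_mm]
  have hcosI : ∫ τ in (0)..(2 * π), (w' τ ^ 3)⁻¹ * cos τ = 0 := by
    have h1 := integral_comp_tau (F := fun τ => (w' τ ^ 3)⁻¹ * cos τ) (hasDerivAt_mm a b)
      (continuous_inv_qq a b) hτ0 (hinv.mul continuous_cos)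
      (fun τ => by simp only [hw'per, cos_add_two_pi])
    rw [← h1]
    refine Eq.trans ?_ (hlin (-1 + b ^ 2 / (CC a b * (CC a b - a))) (b / CC a b))
    refine intervalIntegral.integral_congr fun θ _ => ?_
    have h2 := (q_cos_sin_mm a b θ).1
    have hq := (qq_pos a b θ).ne'
    have hw := (hwp θ).ne'
    simp only [hval]
    have h3 : (ww κ θ ^ 3)⁻¹ * (qq a b θ * PP a b θ) =
      ((ww κ θ / qq a b θ) ^ 3)⁻¹ * cos (mm a b θ) * (qq a b θ)⁻¹ := by
      rw [← h2]
      field_simp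
    exact h3.symm
  have hsinI : ∫ τ in (0)..(2 * π), (w' τ ^ 3)⁻¹ * sin τ = 0 := by
    have h1 := integral_comp_tau (F := fun τ => (w' τ ^ 3)⁻¹ * sin τ) (hasDerivAt_mm a b)
      (continuous_inv_qq a b) hτ0 (hinv.mul continuous_sin)
      (fun τ => by simp only [hw'per, sin_add_two_pi])
    rw [← h1]
    refine Eq.trans ?_ (hlin (-(b / (CC a b * (CC a b - a)))) (-(1 / CC a b)))
    refine intervalIntegral.integral_congr fun θ _ => ?_
    have h2 := (q_cos_sin_mm a b θ).2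
    have hq := (qq_pos a b θ).ne'
    have hw := (hwp θ).ne'
    simp only [hval]
    have h3 : (ww κ θ ^ 3)⁻¹ * (qq a b θ * QQ a b θ) =
      ((ww κ θ / qq a b θ) ^ 3)⁻¹ * sin (mm a b θ) * (qq a b θ)⁻¹ := by
      rw [← h2]
      field_simp
    exact h3.symm
  have hbs := blaschke_santalo hw'd hw'p h'.hasDerivAt_κ h'.continuous_dκ hw'per h'.κ_per
    (fun θ => (h'.k2_pos θ).le) hcosI hsinI
  obtain ⟨-, hcen⟩ := h'.centred hbs
  refine ⟨a, b, fun c hc => ?_⟩
  obtain ⟨r, hr, hr'⟩ := hcen c hc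
  refine ⟨r, hr, fun θ => ?_⟩
  have h1 := hr' (mm a b θ)
  unfold UU at h1
  rwa [nn_mm] at h1

end Fam

end Pool.Agent.MP_ae5b4e_an_total
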