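import Mathlib
import Pool.Agent.Lib.MP_ae5b4e_an_total.Final

/-!
Tangent lines of the unit circle in the real projective plane.
-/

noncomputable section

namespace Pool.Agent.MP_ae5b4e_an_total

open Real Set Filter Topology

/-- homogeneous coordinates of a point of the tangent line -/
def hvec (θ u : ℝ) : Fin 3 → ℝ := ![u * cos θ - sin θ, u * sin θ + cos θ, u]

lemma hvec_ne (θ u : ℝ) : hvec θ u ≠ 0 := by
  intro h
  have h2 : u = 0 := by simpa [hvec] using congrFun h 2
  have h0 : u * cos θ - sin θ = 0 := by simpa [hvec] using congrFun h 0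
  have h1 : u * sin θ + cos θ = 0 := by simpa [hvec] using congrFun h 1
  rw [h2] at h0 h1
  have := sin_sq_add_cos_sq θ
  have e0 : sin θ = 0 := by linarith
  have e1 : cos θ = 0 := by linarith
  rw [e0, e1] at this
  norm_num at this

/-- The point of the tangent line to the unit circle at the angle `θ` whose coordinate is `u`
(the tangency point has the coordinate `∞`; the point with `u ≠ 0` is
`(cos θ, sin θ) + (-sin θ, cos θ) / u` in the affine chart, and `u = 0` is the point at
infinity). -/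
def pt (θ u : ℝ) : Projectivization ℝ (Fin 3 → ℝ) := Projectivization.mk ℝ (hvec θ u) (hvec_ne θ u)

/-- The closed curve that contains the point with coordinate `U c θ` of the tangent line at the
angle `θ`, for every `θ`. -/
def leaf (U : ℝ → ℝ → ℝ) (c : ℝ) : Set (Projectivization ℝ (Fin 3 → ℝ)) :=
  Set.range fun θ => pt θ (U c θ)

/-- The conic `(C z - a x - b y)² = r² (x² + y² - z²)`, `C = √(1 + a² + b²)`, of the projective
plane. -/
def conic (a b r : ℝ) : Set (Projectivization ℝ (Fin 3 → ℝ)) :=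
  {P | (√(1 + a ^ 2 + b ^ 2) * P.rep 2 - a * P.rep 0 - b * P.rep 1) ^ 2 =
    r ^ 2 * (P.rep 0 ^ 2 + P.rep 1 ^ 2 - P.rep 2 ^ 2)}

lemma pt_nx (θ u : ℝ) : pt (nx θ u) (-u) = pt θ u := by
  unfold pt
  rw [Projectivization.mk_eq_mk_iff']
  refine ⟨-1, ?_⟩
  have h : (0:ℝ) < 1 + u ^ 2 := by positivity
  have hc := cos_nx θ u
  have hs := sin_nx θ u
  ext i
  fin_cases i
  · simp [hvec]
    rw [hc, hs]
    field_simp
    ring
  · simp [hvec]
    rw [hc, hs]
    field_simp
    ring
  · simp [hvec]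

lemma feq_of_proj {U : ℝ → ℝ → ℝ} {κ : ℝ → ℝ} {c : ℝ}
    (hsimple : ∀ θ θ', pt θ (U c θ) = pt θ' (U c θ') → ∃ n : ℤ, θ' = θ + n * (2 * π))
    (hproj : ∀ θ u v, u ≠ v → pt θ u ∈ leaf U c → pt θ v ∈ leaf U c → u + v = κ θ) (θ : ℝ) :
    U c (nxt U c θ) - κ (nxt U c θ) = U c θ := by
  have h1 : pt (nxt U c θ) (-(U c θ)) = pt θ (U c θ) := pt_nx θ (U c θ)
  have hne : U c (nxt U c θ) ≠ -(U c θ) := by
    intro he
    obtain ⟨n, hn⟩ := hsimple θ (nxt U c θ) (by rw [he, h1])
    have h2 : nxt U c θ = θ + π - 2 * arctan (U c θ) := rfl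
    have h3 := arctan_lt_pi_div_two (U c θ)
    have h4 := neg_pi_div_two_lt_arctan (U c θ)
    have h5 : (n:ℝ) * (2 * π) = π - 2 * arctan (U c θ) := by linarith
    have h6 : 0 < (n:ℝ) * (2 * π) := by linarith
    have h7 : (n:ℝ) * (2 * π) < 1 * (2 * π) := by linarith
    have h8 : (0:ℝ) < n := by
      by_contra hneg
      push Not at hneg
      have := mul_nonpos_of_nonpos_of_nonneg hneg (by positivity : (0:ℝ) ≤ 2 * π)
      linarith
    have h9 : (n:ℝ) < 1 := lt_of_mul_lt_mul_right h7 (by positivity)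
    have h10 : (0:ℤ) < n := by exact_mod_cast h8
    have h11 : n < 1 := by exact_mod_cast h9
    omega
  have h2 := hproj (nxt U c θ) (U c (nxt U c θ)) (-(U c θ)) hne ⟨_, rfl⟩
    (by rw [h1]; exact ⟨θ, rfl⟩)
  linarith

/-- homogeneity -/
lemma conic_mk {a b r : ℝ} {v : Fin 3 → ℝ} (hv : v ≠ 0) :
    Projectivization.mk ℝ v hv ∈ conic a b r ↔
      (CC a b * v 2 - a * v 0 - b * v 1) ^ 2 = r ^ 2 * (v 0 ^ 2 + v 1 ^ 2 - v 2 ^ 2) := by
  obtain ⟨t, ht⟩ := Projectivization.exists_smul_eq_mk_rep ℝ v hv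
  have ht0 : (t : ℝ) ≠ 0 := t.ne_zero
  have e : ∀ i, (Projectivization.mk ℝ v hv).rep i = t * v i := by
    intro i
    rw [← ht]
    rfl
  show (√(1 + a ^ 2 + b ^ 2) * (Projectivization.mk ℝ v hv).rep 2 - a * _ - b * _) ^ 2 = _ ↔ _
  rw [e, e, e]
  have h1 : (√(1 + a ^ 2 + b ^ 2) * (t * v 2) - a * (t * v 0) - b * (t * v 1)) ^ 2 =
      (t:ℝ) ^ 2 * (CC a b * v 2 - a * v 0 - b * v 1) ^ 2 := by
    unfold CC
    ring
  have h2 : r ^ 2 * ((t * v 0) ^ 2 + (t * v 1) ^ 2 - (t * v 2) ^ 2) =
      (t:ℝ) ^ 2 * (r ^ 2 * (v 0 ^ 2 + v 1 ^ 2 - v 2 ^ 2)) := by ring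
  rw [h1, h2]
  have h3 : ((t:ℝ) ^ 2) ≠ 0 := pow_ne_zero 2 ht0
  exact mul_right_inj' h3

/-- A point outside the circle is on a tangent line. -/
lemma exists_angle {x y z : ℝ} (hv : x ^ 2 + y ^ 2 - z ^ 2 = 1) :
    ∃ θ, x = z * cos θ - sin θ ∧ y = z * sin θ + cos θ := by
  have h1 : (0:ℝ) < 1 + z ^ 2 := by positivity
  set X : ℝ := (x * z + y) / (1 + z ^ 2) with hX
  set Y : ℝ := (y * z - x) / (1 + z ^ 2) with hY
  have hXY : X ^ 2 + Y ^ 2 = 1 := by
    rw [hX, hY, div_pow, div_pow, ← add_div, div_eq_one_iff_eq (by positivity)]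
    have : x ^ 2 + y ^ 2 = 1 + z ^ 2 := by linarith
    calc (x * z + y) ^ 2 + (y * z - x) ^ 2
        = (1 + z ^ 2) * (x ^ 2 + y ^ 2) := by ring
      _ = (1 + z ^ 2) ^ 2 := by rw [this]; ring
  obtain ⟨θ, hc, hsn⟩ : ∃ θ : ℝ, cos θ = X ∧ sin θ = Y := by
    refine ⟨Complex.arg ⟨X, Y⟩, ?_, ?_⟩
    · have hn : ‖(⟨X, Y⟩ : ℂ)‖ = 1 := by
        rw [Complex.norm_def, Complex.normSq_mk, ← sq, ← sq, hXY, sqrt_one]
      have hne : (⟨X, Y⟩ : ℂ) ≠ 0 := by
        intro h
        rw [h, norm_zero] at hn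
        exact zero_ne_one hn
      rw [Complex.cos_arg hne, hn, div_one]
    · have hn : ‖(⟨X, Y⟩ : ℂ)‖ = 1 := by
        rw [Complex.norm_def, Complex.normSq_mk, ← sq, ← sq, hXY, sqrt_one]
      rw [Complex.sin_arg, hn, div_one]
  refine ⟨θ, ?_, ?_⟩
  · rw [hc, hsn, hX, hY]
    field_simp
    ring
  · rw [hc, hsn, hX, hY]
    field_simp
    ring

lemma leaf_eq_conic {U : ℝ → ℝ → ℝ} {a b c r : ℝ} (hr : 0 < r)
    (hU : ∀ θ, qq a b θ * U c θ + dq a b θ = r) : leaf U c = conic a b r := by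
  have hC := CC_sq a b
  have hCp := CC_pos a b
  ext P
  constructor
  · rintro ⟨θ, rfl⟩
    have h := hU θ
    have hs := sin_sq_add_cos_sq θ
    show Projectivization.mk ℝ _ _ ∈ _
    rw [conic_mk]
    have e0 : hvec θ (U c θ) 0 = U c θ * cos θ - sin θ := rfl
    have e1 : hvec θ (U c θ) 1 = U c θ * sin θ + cos θ := rfl
    have e2 : hvec θ (U c θ) 2 = U c θ := rfl
    rw [e0, e1, e2]
    have h1 : CC a b * U c θ - a * (U c θ * cos θ - sin θ) - b * (U c θ * sin θ + cos θ) = r := by
      rw [← h]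
      unfold qq dq
      ring
    have h2 : (U c θ * cos θ - sin θ) ^ 2 + (U c θ * sin θ + cos θ) ^ 2 - U c θ ^ 2 = 1 := by
      linear_combination (U c θ ^ 2 + 1) * hs
    rw [h1, h2, mul_one]
  · intro hP
    induction P using Projectivization.ind with
    | h v hv =>
      rw [conic_mk] at hP
      set x := v 0 with hx
      set y := v 1 with hy
      set z := v 2 with hz
      have hr2 : 0 < r ^ 2 := by positivity
      -- the point is outside the circle
      have hnn : 0 ≤ x ^ 2 + y ^ 2 - z ^ 2 := by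
        have h1 : 0 ≤ r ^ 2 * (x ^ 2 + y ^ 2 - z ^ 2) := by rw [← hP]; positivity
        exact nonneg_of_mul_nonneg_right h1 hr2
      have hpos : 0 < x ^ 2 + y ^ 2 - z ^ 2 := by
        rcases hnn.lt_or_eq with h | h
        · exact h
        · exfalso
          rw [← h, mul_zero] at hP
          have h1 : CC a b * z - a * x - b * y = 0 := by simpa using hP
          have h2 : z ^ 2 = x ^ 2 + y ^ 2 := by linarith
          have h3 : CC a b * z = a * x + b * y := by linarith
          have h4 : (CC a b * z) ^ 2 ≤ (a ^ 2 + b ^ 2) * (x ^ 2 + y ^ 2) := by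
            rw [h3]
            nlinarith [sq_nonneg (a * y - b * x)]
          rw [mul_pow, hC, ← h2] at h4
          have h5 : z ^ 2 ≤ 0 := by nlinarith
          have h6 : z = 0 := by
            have : z ^ 2 = 0 := le_antisymm h5 (sq_nonneg z)
            simpa using this
          rw [h6] at h2
          have h7 : x = 0 := by nlinarith [sq_nonneg x, sq_nonneg y]
          have h8 : y = 0 := by nlinarith [sq_nonneg x, sq_nonneg y]
          apply hv
          ext i
          fin_cases i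
          · exact h7
          · exact h8
          · exact h6
      set N := √(x ^ 2 + y ^ 2 - z ^ 2) with hN
      have hNp : 0 < N := sqrt_pos.2 hpos
      have hN2 : N ^ 2 = x ^ 2 + y ^ 2 - z ^ 2 := sq_sqrt hpos.le
      -- the sign
      have hsg : CC a b * z - a * x - b * y = r * N ∨ CC a b * z - a * x - b * y = -(r * N) := by
        rw [← hN2, ← mul_pow] at hP
        exact sq_eq_sq_iff_eq_or_eq_neg.1 hP
      obtain ⟨t, ht0, ht2, htr⟩ : ∃ t : ℝ, t ≠ 0 ∧ t ^ 2 * N ^ 2 = 1 ∧
          t * (CC a b * z - a * x - b * y) = r := by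
        rcases hsg with h | h
        · refine ⟨N⁻¹, inv_ne_zero hNp.ne', ?_, ?_⟩
          · field_simp
          · rw [h]
            field_simp
        · refine ⟨-N⁻¹, neg_ne_zero.2 (inv_ne_zero hNp.ne'), ?_, ?_⟩
          · field_simp
          · rw [h]
            field_simp
      obtain ⟨θ, hθx, hθy⟩ := exists_angle (x := t * x) (y := t * y) (z := t * z) (by
        rw [hN2] at ht2
        linarith)
      refine ⟨θ, ?_⟩
      have h1 : t * z = U c θ := by
        have h2 := hU θ
        have h3 : qq a b θ * (t * z) + dq a b θ = r := by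
          rw [← htr]
          have e : t * (CC a b * z - a * x - b * y) = CC a b * (t * z) - a * (t * x) - b * (t * y) := by
            ring
          rw [e, hθx, hθy]
          unfold qq dq
          ring
        have h4 : qq a b θ * (t * z - U c θ) = 0 := by linarith
        rcases mul_eq_zero.1 h4 with h5 | h5
        · exact absurd h5 (qq_pos a b θ).ne'
        · linarith
      show pt θ (U c θ) = Projectivization.mk ℝ v hv
      unfold pt
      rw [Projectivization.mk_eq_mk_iff']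
      refine ⟨t, ?_⟩
      rw [h1] at hθx hθy
      ext i
      fin_cases i
      · show t * v 0 = U c θ * cos θ - sin θ
        exact hθx
      · show t * v 1 = U c θ * sin θ + cos θ
        exact hθy
      · show t * v 2 = U c θ
        exact h1

end Pool.Agent.MP_ae5b4e_an_total
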